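import Mathlib

set_option autoImplicit false

/-!
# The function `log (e ^ u + s)` and the change of variables
-/

namespace Pool.Agent.X37.NP

open MeasureTheory Set Filter Topology

/-- `log (e ^ u + s)` -/
noncomputable def ls (s u : ℝ) : ℝ := Real.log (Real.exp u + s)

lemma exp_ge_two {u : ℝ} (hu : 1 ≤ u) : 2 ≤ Real.exp u := by
  have := Real.add_one_le_exp u
  linarith

lemma arg_ge {s u : ℝ} (hs : |s| ≤ 1) (hu : 1 ≤ u) : 1 ≤ Real.exp u + s := by
  have h1 := exp_ge_two hu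
  have h2 := (abs_le.1 hs).1
  linarith

lemma exp_ls {s u : ℝ} (hs : |s| ≤ 1) (hu : 1 ≤ u) : Real.exp (ls s u) = Real.exp u + s :=
  Real.exp_log (by linarith [arg_ge hs hu])

lemma ls_neg_ls {s u : ℝ} (hs : |s| ≤ 1) (hu : 1 ≤ u) : ls (-s) (ls s u) = u := by
  have h := exp_ls hs hu
  have e : ls (-s) (ls s u) = Real.log (Real.exp (ls s u) + -s) := rfl
  rw [e, h, add_neg_cancel_right, Real.log_exp]

lemma exp_neg_le {u : ℝ} (hu : 1 ≤ u) : Real.exp (-u) ≤ 1 / 2 := by
  rw [Real.exp_neg, ← one_div]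
  exact one_div_le_one_div_of_le (by norm_num) (exp_ge_two hu)

lemma ls_eq {s u : ℝ} (hs : |s| ≤ 1) (hu : 1 ≤ u) : ls s u = u + Real.log (1 + s * Real.exp (-u)) := by
  have h0 : Real.exp u + s = Real.exp u * (1 + s * Real.exp (-u)) := by
    rw [mul_add, mul_one, mul_left_comm, ← Real.exp_add]
    simp
  have h1 := arg_ge hs hu
  have h2 : 0 < 1 + s * Real.exp (-u) := by
    rw [h0] at h1
    by_contra hc
    have := mul_nonpos_of_nonneg_of_nonpos (Real.exp_pos u).le (not_lt.1 hc)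
    linarith
  unfold ls
  rw [h0, Real.log_mul (Real.exp_pos u).ne' h2.ne', Real.log_exp]

lemma ls_near {s u : ℝ} (hs : |s| ≤ 1) (hu : 1 ≤ u) : |ls s u - u| ≤ 2 * Real.exp (-u) := by
  rw [ls_eq hs hu]
  have h1 := exp_neg_le hu
  have h0 := Real.exp_pos (-u)
  have hx : |s * Real.exp (-u)| ≤ Real.exp (-u) := by
    rw [abs_mul, abs_of_pos h0]
    exact mul_le_of_le_one_left h0.le hs
  have hx' := abs_le.1 hx
  set x := s * Real.exp (-u) with hxd
  have h2 : 0 < 1 + x := by linarith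
  have h3 := Real.log_le_sub_one_of_pos h2
  have h4 := Real.one_sub_inv_le_log_of_pos h2
  have h5 : -(2 * Real.exp (-u)) ≤ 1 - (1 + x)⁻¹ := by
    have h6 : (1 + x)⁻¹ ≤ 1 + 2 * Real.exp (-u) := by
      rw [inv_le_comm₀ h2 (by linarith)]
      rw [inv_le_iff_one_le_mul₀ (by linarith)]
      nlinarith
    linarith
  rw [abs_le]
  constructor <;> linarith

lemma ls_near_one {s u : ℝ} (hs : |s| ≤ 1) (hu : 1 ≤ u) : |ls s u - u| ≤ 1 := by
  have h1 := ls_near hs hu
  have h2 := exp_neg_le hu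
  linarith

lemma ls_mono {s a b : ℝ} (hs : |s| ≤ 1) (ha : 1 ≤ a) (hab : a ≤ b) : ls s a ≤ ls s b := by
  unfold ls
  refine Real.log_le_log (by linarith [arg_ge hs ha]) ?_
  linarith [Real.exp_le_exp.2 hab]

lemma ls_strict {s a b : ℝ} (hs : |s| ≤ 1) (ha : 1 ≤ a) (hab : a < b) : ls s a < ls s b := by
  unfold ls
  refine Real.log_lt_log (by linarith [arg_ge hs ha]) ?_
  linarith [Real.exp_lt_exp.2 hab]

lemma ls_lip {s a b : ℝ} (hs : |s| ≤ 1) (ha : 1 ≤ a) (hab : a ≤ b) :
    ls s b ≤ ls s a + 2 * (b - a) := by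
  have h1 := arg_ge hs ha
  have h2 : ls s a + 2 * (b - a) = Real.log ((Real.exp a + s) * Real.exp (2 * (b - a))) := by
    rw [Real.log_mul (by linarith) (Real.exp_pos _).ne', Real.log_exp]
    rfl
  rw [h2]
  unfold ls
  refine Real.log_le_log (by linarith [arg_ge hs (ha.trans hab)]) ?_
  set r := Real.exp (b - a) with hr
  have hr1 : 1 ≤ r := Real.one_le_exp (by linarith)
  have e1 : Real.exp (2 * (b - a)) = r ^ 2 := by
    rw [hr, ← Real.exp_nat_mul]; norm_num
  have e2 : Real.exp b = Real.exp a * r := by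
    rw [hr, ← Real.exp_add]; congr 1; ring
  rw [e1, e2]
  have h3 := exp_ge_two ha
  have h4 := abs_le.1 hs
  have h5 : (Real.exp a + s) * r ^ 2 - (Real.exp a * r + s) =
      (r - 1) * (Real.exp a * r + s * (r + 1)) := by ring
  have h6 : 0 ≤ Real.exp a * r + s * (r + 1) := by nlinarith
  have h7 := mul_nonneg (by linarith : 0 ≤ r - 1) h6
  linarith

lemma ls_lip_abs {s a b : ℝ} (hs : |s| ≤ 1) (ha : 1 ≤ a) (hb : 1 ≤ b) :
    |ls s a - ls s b| ≤ 2 * |a - b| := by
  rcases le_total a b with h | h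
  · have h1 := ls_mono hs ha h
    have h2 := ls_lip hs ha h
    rw [abs_of_nonpos (by linarith), abs_of_nonpos (by linarith)]
    linarith
  · have h1 := ls_mono hs hb h
    have h2 := ls_lip hs hb h
    rw [abs_of_nonneg (by linarith), abs_of_nonneg (by linarith)]
    linarith

lemma measurable_ls (s : ℝ) : Measurable (ls s) := by
  unfold ls
  exact Real.measurable_log.comp (Real.measurable_exp.add_const s)

/-- the logarithm of the value, shifted by `s` -/
noncomputable def yy (L : ℕ → ℝ) (s : ℝ) (n : ℕ) (t : ℝ) : ℝ := ls s (n * t + L n)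

lemma measurable_yy (L : ℕ → ℝ) (s : ℝ) (n : ℕ) : Measurable (yy L s n) := by
  unfold yy
  exact (measurable_ls s).comp (by fun_prop)

lemma ls_neg_inv {s u : ℝ} (hs : |s| ≤ 1) (hu : 1 ≤ u) :
    1 / 2 ≤ 1 - s * Real.exp (-u) ∧ 1 - s * Real.exp (-u) ≤ 3 / 2 := by
  have h1 := exp_neg_le hu
  have h0 := Real.exp_pos (-u)
  have hx : |s * Real.exp (-u)| ≤ Real.exp (-u) := by
    rw [abs_mul, abs_of_pos h0]
    exact mul_le_of_le_one_left h0.le hs
  have := abs_le.1 hx
  constructor <;> linarith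

section

variable {L : ℕ → ℝ} {s : ℝ} {n : ℕ} {a b : ℝ}

lemma yy_strictMonoOn (hs : |s| ≤ 1) (hn : 1 ≤ n) (ha : 2 ≤ n * a + L n) :
    StrictMonoOn (yy L s n) (Icc a b) := by
  intro x hx y hy hxy
  have hn0 : (0 : ℝ) < n := by exact_mod_cast hn
  unfold yy
  have h1 : (n : ℝ) * a ≤ n * x := mul_le_mul_of_nonneg_left hx.1 hn0.le
  have h2 : (n : ℝ) * x < n * y := mul_lt_mul_of_pos_left hxy hn0
  exact ls_strict hs (by linarith) (by linarith)

lemma yy_continuousOn (hs : |s| ≤ 1) (ha : 2 ≤ n * a + L n) :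
    ContinuousOn (yy L s n) (Icc a b) := by
  unfold yy ls
  refine ContinuousOn.log (by fun_prop) fun x hx => ?_
  have h1 : (n : ℝ) * a ≤ n * x := mul_le_mul_of_nonneg_left hx.1 (Nat.cast_nonneg n)
  have := arg_ge hs (show 1 ≤ (n : ℝ) * x + L n by linarith)
  linarith

lemma yy_image (hs : |s| ≤ 1) (hn : 1 ≤ n) (hab : a ≤ b) (ha : 2 ≤ n * a + L n) :
    yy L s n '' (Ioc a b) = Ioc (yy L s n a) (yy L s n b) := by
  have hm := yy_strictMonoOn (L := L) (b := b) hs hn ha
  ext u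
  constructor
  · rintro ⟨t, ht, rfl⟩
    exact ⟨hm ⟨le_rfl, hab⟩ ⟨ht.1.le, ht.2⟩ ht.1,
      hm.monotoneOn ⟨ht.1.le, ht.2⟩ ⟨hab, le_rfl⟩ ht.2⟩
  · rintro ⟨h1, h2⟩
    obtain ⟨t, ht, he⟩ := intermediate_value_Icc hab (yy_continuousOn (L := L) hs ha) ⟨h1.le, h2⟩
    refine ⟨t, ⟨lt_of_le_of_ne ht.1 fun h => ?_, ht.2⟩, he⟩
    rw [← h] at he
    linarith

lemma yy_deriv (hs : |s| ≤ 1) {t : ℝ} (ht : 2 ≤ n * t + L n) :
    HasDerivAt (yy L s n) (n * (1 - s * Real.exp (-(yy L s n t)))) t := by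
  have h1 := arg_ge hs (show 1 ≤ (n : ℝ) * t + L n by linarith)
  have h2 : HasDerivAt (fun t : ℝ => (n : ℝ) * t + L n) n t := by
    simpa using ((hasDerivAt_id t).const_mul (n : ℝ)).add_const (L n)
  have h3 := (h2.exp.add_const s).log (by linarith)
  have e : Real.exp (n * t + L n) * n / (Real.exp (n * t + L n) + s) =
      n * (1 - s * Real.exp (-(yy L s n t))) := by
    have h4 : Real.exp (yy L s n t) = Real.exp (n * t + L n) + s := exp_ls hs (by linarith)
    rw [Real.exp_neg, h4]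
    have : Real.exp (n * t + L n) + s ≠ 0 := by linarith
    field_simp
    ring
  rw [e] at h3
  exact h3

/-- change of variables -/
lemma cov (hs : |s| ≤ 1) (hn : 1 ≤ n) (hab : a ≤ b) (ha : 2 ≤ n * a + L n) (F : ℝ → ℝ) :
    ∫ t in Ioc a b, F (yy L s n t) =
      ∫ u in Ioc (yy L s n a) (yy L s n b), F u / (n * (1 - s * Real.exp (-u))) := by
  have hn0 : (0 : ℝ) < n := by exact_mod_cast hn
  have hna : ∀ t ∈ Ioc a b, 2 ≤ n * t + L n := fun t ht => by
    have := mul_le_mul_of_nonneg_left ht.1.le hn0.le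
    linarith
  rw [← yy_image hs hn hab ha]
  rw [integral_image_eq_integral_abs_deriv_smul (f := yy L s n)
    (f' := fun t => n * (1 - s * Real.exp (-(yy L s n t)))) measurableSet_Ioc
    (fun t ht => (yy_deriv hs (hna t ht)).hasDerivWithinAt)
    ((yy_strictMonoOn (L := L) (b := b) hs hn ha).injOn.mono Ioc_subset_Icc_self)]
  refine setIntegral_congr_fun measurableSet_Ioc fun t ht => ?_
  have h2 := hna t ht
  have h3 : 1 ≤ yy L s n t := by
    have := (abs_le.1 (ls_near_one hs (show 1 ≤ (n : ℝ) * t + L n by linarith))).1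
    unfold yy
    linarith
  have h4 := (ls_neg_inv hs h3).1
  have h5 : 0 < n * (1 - s * Real.exp (-(yy L s n t))) := mul_pos hn0 (by linarith)
  simp only [smul_eq_mul]
  rw [abs_of_pos h5]
  field_simp

lemma yy_ge (hs : |s| ≤ 1) (ha : 2 ≤ n * a + L n) : 1 ≤ yy L s n a := by
  have := (abs_le.1 (ls_near_one hs (show 1 ≤ (n : ℝ) * a + L n by linarith))).1
  unfold yy
  linarith

lemma yy_length (hs : |s| ≤ 1) (hab : a ≤ b) (ha : 2 ≤ n * a + L n) :
    yy L s n b - yy L s n a ≤ 2 * (n * (b - a)) := by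
  have h1 : (n : ℝ) * a ≤ n * b := mul_le_mul_of_nonneg_left hab (Nat.cast_nonneg n)
  have := ls_lip hs (show 1 ≤ (n : ℝ) * a + L n by linarith)
    (show (n : ℝ) * a + L n ≤ n * b + L n by linarith)
  unfold yy
  linarith

lemma yy_le (hs : |s| ≤ 1) (hab : a ≤ b) (ha : 2 ≤ n * a + L n) : yy L s n a ≤ yy L s n b := by
  have h1 : (n : ℝ) * a ≤ n * b := mul_le_mul_of_nonneg_left hab (Nat.cast_nonneg n)
  exact ls_mono hs (by linarith) (by linarith)

/-- upper bound for nonnegative functions -/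
lemma cov_le (hs : |s| ≤ 1) (hn : 1 ≤ n) (hab : a ≤ b) (ha : 2 ≤ n * a + L n) {F : ℝ → ℝ}
    (hF0 : ∀ u, 0 ≤ F u) (hFi : ∀ u v, IntegrableOn F (Ioc u v)) :
    ∫ t in Ioc a b, F (yy L s n t) ≤ 2 / n * ∫ u in Ioc (yy L s n a) (yy L s n b), F u := by
  have hn0 : (0 : ℝ) < n := by exact_mod_cast hn
  rw [cov hs hn hab ha, ← integral_const_mul]
  have h1 := yy_ge hs ha
  refine setIntegral_mono_on_ae ?_ ((hFi _ _).const_mul _) measurableSet_Ioc
    (Eventually.of_forall fun u hu => ?_)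
  · refine Integrable.mono' ((hFi (yy L s n a) (yy L s n b)).const_mul (2 / n)) ?_ ?_
    · refine (hFi _ _).aestronglyMeasurable.mul ?_ |>.congr
        (Eventually.of_forall fun u => (div_eq_mul_inv _ _).symm)
      exact (Measurable.inv (by fun_prop)).aestronglyMeasurable
    · rw [ae_restrict_iff' measurableSet_Ioc]
      refine Eventually.of_forall fun u hu => ?_
      have h2 := (ls_neg_inv hs (h1.trans hu.1.le)).1
      have h3 : 0 < n * (1 - s * Real.exp (-u)) := mul_pos hn0 (by linarith)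
      rw [Real.norm_eq_abs, abs_of_nonneg (div_nonneg (hF0 u) h3.le), div_le_iff₀ h3]
      have h4 : 2 / (n : ℝ) * F u * (n * (1 - s * Real.exp (-u))) =
          F u * (2 * (1 - s * Real.exp (-u))) := by field_simp
      rw [h4]
      nlinarith [hF0 u]
  · have h2 := (ls_neg_inv hs (h1.trans hu.1.le)).1
    have h3 : 0 < n * (1 - s * Real.exp (-u)) := mul_pos hn0 (by linarith)
    rw [div_le_iff₀ h3]
    have h4 : 2 / (n : ℝ) * F u * (n * (1 - s * Real.exp (-u))) =
        F u * (2 * (1 - s * Real.exp (-u))) := by field_simp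
    rw [h4]
    nlinarith [hF0 u]

/-- comparison for bounded functions -/
lemma cov_abs (hs : |s| ≤ 1) (hn : 1 ≤ n) (hab : a ≤ b) (ha : 2 ≤ n * a + L n) {F : ℝ → ℝ}
    (hFm : Measurable F) (hF1 : ∀ u, |F u| ≤ 1) :
    |(∫ t in Ioc a b, F (yy L s n t)) - 1 / n * ∫ u in Ioc (yy L s n a) (yy L s n b), F u| ≤
      4 * (b - a) * Real.exp (-(yy L s n a)) := by
  have hn0 : (0 : ℝ) < n := by exact_mod_cast hn
  have h1 := yy_ge hs ha
  have hle := yy_le hs hab ha
  rw [cov hs hn hab ha, ← integral_const_mul]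
  set A := yy L s n a with hA
  set B := yy L s n b with hB
  have hi0 : IntegrableOn F (Ioc A B) :=
    Measure.integrableOn_of_bounded (M := 1) (by simp) hFm.aestronglyMeasurable
      (Eventually.of_forall fun u => by rw [Real.norm_eq_abs]; exact hF1 u)
  have hi1 : IntegrableOn (fun u => F u / (n * (1 - s * Real.exp (-u)))) (Ioc A B) := by
    refine Integrable.mono' (hi0.abs.const_mul (2 / (n : ℝ))) ?_ ?_
    · exact (hFm.div (by fun_prop)).aestronglyMeasurable
    · rw [ae_restrict_iff' measurableSet_Ioc]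
      refine Eventually.of_forall fun u hu => ?_
      have h2 := (ls_neg_inv hs (h1.trans hu.1.le)).1
      have h3 : 0 < n * (1 - s * Real.exp (-u)) := mul_pos hn0 (by linarith)
      rw [Real.norm_eq_abs, abs_div, abs_of_pos h3, div_le_iff₀ h3]
      have h4 : 2 / (n : ℝ) * |F u| * (n * (1 - s * Real.exp (-u))) =
          |F u| * (2 * (1 - s * Real.exp (-u))) := by field_simp
      rw [h4]
      nlinarith [abs_nonneg (F u)]
  rw [← integral_sub hi1 (hi0.const_mul _)]
  have hbd : ∀ u ∈ Ioc A B, ‖F u / (n * (1 - s * Real.exp (-u))) - 1 / n * F u‖ ≤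
      2 / n * Real.exp (-A) := by
    intro u hu
    have hu1 : 1 ≤ u := h1.trans hu.1.le
    have h2 := (ls_neg_inv hs hu1).1
    have h3 : 0 < 1 - s * Real.exp (-u) := by linarith
    have e : F u / (n * (1 - s * Real.exp (-u))) - 1 / n * F u =
        F u * (s * Real.exp (-u)) / (n * (1 - s * Real.exp (-u))) := by
      field_simp
      ring
    rw [e, Real.norm_eq_abs, abs_div, abs_mul, abs_mul, abs_of_pos (Real.exp_pos (-u)),
      abs_of_pos (mul_pos hn0 h3), div_le_iff₀ (mul_pos hn0 h3)]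
    have h4 : |F u| * (|s| * Real.exp (-u)) ≤ Real.exp (-u) := by
      have h5 : |F u| * |s| ≤ 1 := mul_le_one₀ (hF1 u) (abs_nonneg _) hs
      calc |F u| * (|s| * Real.exp (-u)) = (|F u| * |s|) * Real.exp (-u) := by ring
        _ ≤ 1 * Real.exp (-u) := mul_le_mul_of_nonneg_right h5 (Real.exp_pos _).le
        _ = _ := one_mul _
    have h5 : Real.exp (-u) ≤ Real.exp (-A) := Real.exp_le_exp.2 (by linarith [hu.1])
    have h6 : 2 / (n : ℝ) * Real.exp (-A) * (n * (1 - s * Real.exp (-u))) =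
        Real.exp (-A) * (2 * (1 - s * Real.exp (-u))) := by field_simp
    rw [h6]
    nlinarith [Real.exp_pos (-A)]
  have h7 := norm_setIntegral_le_of_norm_le_const (μ := volume) (s := Ioc A B) (by simp) hbd
  rw [Real.norm_eq_abs] at h7
  refine h7.trans ?_
  rw [Real.volume_real_Ioc_of_le hle]
  have h8 := yy_length hs hab ha
  rw [← hA, ← hB] at h8
  calc 2 / n * Real.exp (-A) * (B - A) ≤ 2 / n * Real.exp (-A) * (2 * (n * (b - a))) :=
        mul_le_mul_of_nonneg_left h8 (by positivity)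
    _ = _ := by field_simp; ring

end

/-- covering an interval by unit windows -/
lemma cover {G : ℝ → ℝ} (hG0 : ∀ u, 0 ≤ G u) (hGi : ∀ u v, IntegrableOn G (Ioc u v)) {A A' B : ℝ}
    (hAA : A ≤ A') (h : ∀ Y, A ≤ Y → ∫ u in Ioc Y (Y + 1), G u ≤ B) :
    ∫ u in Ioc A A', G u ≤ (A' - A + 1) * B := by
  have hB : 0 ≤ B := le_trans (setIntegral_nonneg measurableSet_Ioc fun u _ => hG0 u) (h A le_rfl)
  have hk : ∀ k : ℕ, ∫ u in Ioc A (A + k), G u ≤ k * B := by
    intro k
    induction k with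
    | zero => simp
    | succ k ih =>
      have e : Ioc A (A + (k + 1 : ℕ)) = Ioc A (A + k) ∪ Ioc (A + k) (A + k + 1) := by
        rw [Ioc_union_Ioc_eq_Ioc (by linarith [(Nat.cast_nonneg k : (0 : ℝ) ≤ k)]) (by linarith)]
        congr 1
        push_cast; ring
      rw [e, setIntegral_union (Ioc_disjoint_Ioc_of_le le_rfl) measurableSet_Ioc (hGi _ _) (hGi _ _)]
      have := h (A + k) (by linarith [(Nat.cast_nonneg k : (0 : ℝ) ≤ k)])
      push_cast
      linarith
  have h1 := Nat.le_ceil (A' - A)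
  have h2 := Nat.ceil_lt_add_one (show 0 ≤ A' - A by linarith)
  calc ∫ u in Ioc A A', G u ≤ ∫ u in Ioc A (A + ⌈A' - A⌉₊), G u :=
        setIntegral_mono_set (hGi _ _) (Eventually.of_forall fun u => hG0 u)
          (Ioc_subset_Ioc_right (by linarith)).eventuallyLE
    _ ≤ ⌈A' - A⌉₊ * B := hk _
    _ ≤ _ := mul_le_mul_of_nonneg_right (by linarith) hB

/-- covering with cancellation -/
lemma cover_signed {F : ℝ → ℝ} (hFm : Measurable F) (hF1 : ∀ u, |F u| ≤ 1) {A A' B B' : ℝ}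
    (hAA : A ≤ A') (h : ∀ Y, A ≤ Y → Y + 1 ≤ A' → |∫ u in Ioc Y (Y + 1), F u| ≤ B) (hB : 0 ≤ B)
    (h' : ∀ Y, A ≤ Y → ∫ u in Ioc Y (Y + 1), |F u| ≤ B') :
    |∫ u in Ioc A A', F u| ≤ (A' - A) * B + B' := by
  have hFi : ∀ u v, IntegrableOn F (Ioc u v) := fun u v =>
    Measure.integrableOn_of_bounded (M := 1) (by simp) hFm.aestronglyMeasurable
      (Eventually.of_forall fun u => by rw [Real.norm_eq_abs]; exact hF1 u)
  have hk : ∀ k : ℕ, A + k ≤ A' → |∫ u in Ioc A (A + k), F u| ≤ k * B := by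
    intro k
    induction k with
    | zero => simp
    | succ k ih =>
      intro hkA
      push_cast at hkA
      have e : Ioc A (A + (k + 1 : ℕ)) = Ioc A (A + k) ∪ Ioc (A + k) (A + k + 1) := by
        rw [Ioc_union_Ioc_eq_Ioc (by linarith [(Nat.cast_nonneg k : (0 : ℝ) ≤ k)]) (by linarith)]
        congr 1
        push_cast; ring
      rw [e, setIntegral_union (Ioc_disjoint_Ioc_of_le le_rfl) measurableSet_Ioc (hFi _ _) (hFi _ _)]
      have h3 := h (A + k) (by linarith [(Nat.cast_nonneg k : (0 : ℝ) ≤ k)]) (by linarith)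
      have h4 := ih (by linarith)
      refine (abs_add_le _ _).trans ?_
      push_cast
      linarith
  set k := ⌊A' - A⌋₊ with hkd
  have h1 : (k : ℝ) ≤ A' - A := Nat.floor_le (by linarith)
  have h2 : A' - A < k + 1 := Nat.lt_floor_add_one _
  have e : Ioc A A' = Ioc A (A + k) ∪ Ioc (A + k) A' := by
    rw [Ioc_union_Ioc_eq_Ioc (by linarith [(Nat.cast_nonneg k : (0 : ℝ) ≤ k)]) (by linarith)]
  rw [e, setIntegral_union (Ioc_disjoint_Ioc_of_le le_rfl) measurableSet_Ioc (hFi _ _) (hFi _ _)]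
  have h3 := hk k (by linarith)
  have h4 : |∫ u in Ioc (A + k) A', F u| ≤ B' := by
    refine (abs_integral_le_integral_abs).trans ?_
    refine le_trans ?_ (h' (A + k) (by linarith [(Nat.cast_nonneg k : (0 : ℝ) ≤ k)]))
    exact setIntegral_mono_set (hFi _ _).abs (Eventually.of_forall fun u => abs_nonneg _)
      (Ioc_subset_Ioc_right (by linarith)).eventuallyLE
  refine (abs_add_le _ _).trans ?_
  have h5 : (k : ℝ) * B ≤ (A' - A) * B := mul_le_mul_of_nonneg_right h1 hB
  linarith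

end Pool.Agent.X37.NP
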