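import Mathlib
import Pool.Agent.X37.NP.Ls
import Pool.Agent.W66.CD
import Pool.Agent.W66.GC
import Pool.Agent.X10.AI.Near

set_option autoImplicit false

/-!
# Two simultaneous prime values in a unit window
-/

namespace Pool.Agent.X37.NP

open MeasureTheory Set Filter Topology
open Pool.Agent.W66 (NN_bounds)
open Pool.Agent.W66V (Conv BC BC_nonneg corr_conv joint_sift_log size_exp)
open Pool.Agent.H305R2 (roughPart NN ff measurable_NN measurable_ff ff_nonneg ff_le_one)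
open Pool.Agent.X10.AI (ff_one)

/-- the convex function relating the two values -/
noncomputable def psi (c κ s x : ℝ) : ℝ := c * (x - s) ^ κ + s

lemma psi_exp {d κ s u : ℝ} (hs : |s| ≤ 1) (hu : 1 ≤ u) (hd : 0 ≤ d) (hκ : 1 ≤ κ) :
    Real.exp u ≤ psi (Real.exp d) κ s (Real.exp u) ∧
    Real.exp (ls s (κ * ls (-s) u + d)) = psi (Real.exp d) κ s (Real.exp u) := by
  have h2 := exp_ge_two hu
  have h4 := abs_le.1 hs
  have hx : 1 ≤ Real.exp u - s := by linarith
  have h5 : Real.exp u - s ≤ (Real.exp u - s) ^ κ := by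
    calc Real.exp u - s = (Real.exp u - s) ^ (1 : ℝ) := (Real.rpow_one _).symm
      _ ≤ _ := Real.rpow_le_rpow_of_exponent_le hx hκ
  have h6 : 1 ≤ Real.exp d := Real.one_le_exp hd
  have h7 : (Real.exp u - s) ^ κ ≤ Real.exp d * (Real.exp u - s) ^ κ := by
    have : 0 ≤ (Real.exp u - s) ^ κ := by linarith
    nlinarith
  have h8 : Real.exp u ≤ psi (Real.exp d) κ s (Real.exp u) := by
    unfold psi
    linarith
  refine ⟨h8, ?_⟩
  have e1 : Real.exp (κ * ls (-s) u + d) = Real.exp d * (Real.exp u - s) ^ κ := by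
    rw [Real.exp_add, Real.rpow_def_of_pos (by linarith)]
    unfold ls
    rw [mul_comm, ← sub_eq_add_neg]
    congr 1
    rw [mul_comm]
  unfold ls at e1 ⊢
  rw [e1, Real.exp_log]
  · rfl
  · have := Real.exp_pos u
    unfold psi at h8
    linarith

lemma psi_conv {c κ s X : ℝ} (hs : |s| ≤ 1) (hX : 2 ≤ X) (hc : 1 ≤ c) {η : ℝ} (hη : 0 ≤ η) (hκ : 1 + η ≤ κ) :
    Conv (psi c κ s) (fun x => c * (κ * (x - s) ^ (κ - 1)))
      (fun x => c * (κ * ((κ - 1) * (x - s) ^ (κ - 2)))) X (η / (2 * (Real.exp 1 * X))) := by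
  have h4 := abs_le.1 hs
  have hpos : ∀ x ∈ Icc X (Real.exp 1 * X), 1 ≤ x - s := fun x hx => by linarith [hx.1]
  have hsub : ∀ x : ℝ, HasDerivAt (fun x : ℝ => x - s) 1 x := fun x => (hasDerivAt_id x).sub_const s
  refine ⟨fun x hx => ?_, fun x hx => ?_, ?_, fun x hx => ?_⟩
  · have h1 := (hsub x).rpow_const (p := κ) (Or.inl (by linarith [hpos x hx] : x - s ≠ 0))
    have h2 := (h1.const_mul c).add_const s
    have e : c * (1 * κ * (x - s) ^ (κ - 1)) = c * (κ * (x - s) ^ (κ - 1)) := by ring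
    rw [e] at h2
    exact h2
  · have h1 := (hsub x).rpow_const (p := κ - 1) (Or.inl (by linarith [hpos x hx] : x - s ≠ 0))
    have h2 := (h1.const_mul κ).const_mul c
    have e : c * (κ * (1 * (κ - 1) * (x - s) ^ (κ - 1 - 1))) =
        c * (κ * ((κ - 1) * (x - s) ^ (κ - 2))) := by
      have : κ - 1 - 1 = κ - 2 := by ring
      rw [this]; ring
    rw [e] at h2
    exact h2
  · refine continuousOn_const.mul (continuousOn_const.mul (continuousOn_const.mul ?_))
    exact (continuousOn_id.sub continuousOn_const).rpow_const fun x hx =>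
      Or.inl (by
        have := hpos x hx
        intro h
        have h' : x - s = 0 := h
        linarith)
  · have hx1 := hpos x hx
    have hx0 : 0 < x - s := by linarith
    have e : (x - s) ^ (κ - 2) = (x - s) ^ (κ - 1) * (x - s)⁻¹ := by
      rw [← Real.rpow_neg_one, ← Real.rpow_add hx0]
      congr 1; ring
    have h5 : 1 ≤ (x - s) ^ (κ - 1) := Real.one_le_rpow hx1 (by linarith)
    have h6 : 1 / (2 * (Real.exp 1 * X)) ≤ (x - s)⁻¹ := by
      rw [← one_div]
      exact one_div_le_one_div_of_le hx0 (by linarith [hx.1, hx.2])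
    have h6' : 0 < 1 / (2 * (Real.exp 1 * X)) := by positivity
    have h7 : 1 / (2 * (Real.exp 1 * X)) ≤ (x - s) ^ (κ - 2) := by
      rw [e]
      calc 1 / (2 * (Real.exp 1 * X)) ≤ (x - s)⁻¹ := h6
        _ = 1 * (x - s)⁻¹ := (one_mul _).symm
        _ ≤ _ := mul_le_mul_of_nonneg_right h5 (by positivity)
    have h8 : η * (1 / (2 * (Real.exp 1 * X))) ≤ (κ - 1) * (x - s) ^ (κ - 2) :=
      mul_le_mul (by linarith) h7 h6'.le (by linarith)
    have h9 : 0 ≤ (κ - 1) * (x - s) ^ (κ - 2) := le_trans (by positivity) h8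
    have h10 : (κ - 1) * (x - s) ^ (κ - 2) ≤ κ * ((κ - 1) * (x - s) ^ (κ - 2)) := by
      have : 1 ≤ κ := by linarith
      nlinarith
    have h11 : κ * ((κ - 1) * (x - s) ^ (κ - 2)) ≤ c * (κ * ((κ - 1) * (x - s) ^ (κ - 2))) := by
      have : 0 ≤ κ * ((κ - 1) * (x - s) ^ (κ - 2)) := h9.trans h10
      nlinarith
    calc η / (2 * (Real.exp 1 * X)) = η * (1 / (2 * (Real.exp 1 * X))) := by ring
      _ ≤ _ := h8.trans (h10.trans h11)

/-- the error term of the sieve -/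
lemma err_np {Y : ℝ} (hY : 1 ≤ Y) {R : ℕ} (hR1 : 1 ≤ R) (hR : (R : ℝ) ≤ Real.exp (Y / 64)) :
    (R : ℝ) ^ 8 * (12 * BC (R ^ 2) (1 / Y / (2 * (Real.exp 1 * Real.exp Y))) (Real.exp Y)) ≤
      76440 * (1 / Y) ^ 2 := by
  have hY0 : 0 < Y := by linarith
  have hR0 : (0 : ℝ) < R := by exact_mod_cast hR1
  have hR1' : (1 : ℝ) ≤ R := by exact_mod_cast hR1
  set E := Real.exp (Y / 2) with hE
  have hE0 : 0 < E := Real.exp_pos _
  have hEE : Real.exp Y = E ^ 2 := by
    rw [hE, ← Real.exp_nat_mul]; congr 1; push_cast; ring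
  have he3 := Real.exp_one_lt_d9
  have he0 := Real.exp_pos 1
  have hsq : 1 / (6 * Y * R * E) ≤ Real.sqrt (1 / Y / (2 * (Real.exp 1 * Real.exp Y)) / ((R ^ 2 : ℕ) : ℝ)) := by
    refine Real.le_sqrt_of_sq_le ?_
    rw [hEE]
    push_cast
    rw [div_pow, one_pow, div_div, div_div]
    refine one_div_le_one_div_of_le (by positivity) ?_
    calc Y * (2 * (Real.exp 1 * E ^ 2) * (R : ℝ) ^ 2) = (2 * Real.exp 1) * (Y * (E ^ 2 * (R : ℝ) ^ 2)) := by
          ring
      _ ≤ (36 * Y) * (Y * (E ^ 2 * (R : ℝ) ^ 2)) :=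
          mul_le_mul_of_nonneg_right (by linarith) (by positivity)
      _ = (6 * Y * R * E) ^ 2 := by ring
  have hBC : BC (R ^ 2) (1 / Y / (2 * (Real.exp 1 * Real.exp Y))) (Real.exp Y) ≤
      48 * Y * R * Real.exp (-(Y / 2)) + (R : ℝ) ^ 2 * Real.exp (-Y) := by
    unfold BC
    have e1 : Real.exp (-(Y / 2)) = 1 / E := by rw [Real.exp_neg, hE, one_div]
    have e2 : Real.exp (-Y) = 1 / E ^ 2 := by rw [Real.exp_neg, hEE, one_div]
    have h1 : 8 / Real.sqrt (1 / Y / (2 * (Real.exp 1 * Real.exp Y)) / ((R ^ 2 : ℕ) : ℝ)) ≤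
        8 / (1 / (6 * Y * R * E)) :=
      div_le_div_of_nonneg_left (by norm_num) (by positivity) hsq
    have h2 : 8 / (1 / (6 * Y * R * E)) / Real.exp Y = 48 * Y * R * (1 / E) := by
      rw [hEE]; field_simp; norm_num
    have h3 : ((R ^ 2 : ℕ) : ℝ) / Real.exp Y = (R : ℝ) ^ 2 * (1 / E ^ 2) := by
      rw [hEE]; push_cast; field_simp
    rw [e1, e2, h3]
    have h4 := div_le_div_of_nonneg_right h1 (Real.exp_pos Y).le
    rw [h2] at h4
    linarith
  have hR9 : (R : ℝ) ^ 9 ≤ Real.exp (9 * (Y / 64)) := by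
    calc (R : ℝ) ^ 9 ≤ (Real.exp (Y / 64)) ^ 9 := pow_le_pow_left₀ hR0.le hR 9
      _ = _ := by rw [← Real.exp_nat_mul]; push_cast; rfl
  have hR10 : (R : ℝ) ^ 10 ≤ Real.exp (10 * (Y / 64)) := by
    calc (R : ℝ) ^ 10 ≤ (Real.exp (Y / 64)) ^ 10 := pow_le_pow_left₀ hR0.le hR 10
      _ = _ := by rw [← Real.exp_nat_mul]; push_cast; rfl
  set z := 23 * Y / 64 with hz
  have hz0 : 0 ≤ z := by positivity
  have hfin : Y * Real.exp (-z) ≤ 130 * (1 / Y) ^ 2 := by
    have h1 := Real.pow_div_factorial_le_exp z hz0 3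
    have h2 : (Nat.factorial 3 : ℝ) = 6 := by norm_num [Nat.factorial]
    rw [h2] at h1
    have h3 : Y ^ 3 ≤ 130 * Real.exp z := by
      have e : z ^ 3 / 6 = 12167 / 1572864 * Y ^ 3 := by rw [hz]; ring
      rw [e] at h1
      have : 0 < Y ^ 3 := by positivity
      nlinarith
    rw [Real.exp_neg, one_div, inv_pow]
    have h5 : 0 < Real.exp z := Real.exp_pos z
    rw [← div_eq_mul_inv, ← div_eq_mul_inv, div_le_div_iff₀ h5 (by positivity)]
    calc Y * Y ^ 2 = Y ^ 3 := by ring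
      _ ≤ _ := h3
  calc (R : ℝ) ^ 8 * (12 * BC (R ^ 2) (1 / Y / (2 * (Real.exp 1 * Real.exp Y))) (Real.exp Y)) ≤
      (R : ℝ) ^ 8 * (12 * (48 * Y * R * Real.exp (-(Y / 2)) + (R : ℝ) ^ 2 * Real.exp (-Y))) := by
        gcongr
    _ = 12 * (48 * Y * ((R : ℝ) ^ 9 * Real.exp (-(Y / 2))) + (R : ℝ) ^ 10 * Real.exp (-Y)) := by ring
    _ ≤ 12 * (48 * Y * (Real.exp (9 * (Y / 64)) * Real.exp (-(Y / 2))) +
        Real.exp (10 * (Y / 64)) * Real.exp (-Y)) := by gcongr
    _ ≤ 12 * (48 * Y * Real.exp (-z) + Y * Real.exp (-z)) := by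
        have e1 : Real.exp (9 * (Y / 64)) * Real.exp (-(Y / 2)) = Real.exp (-z) := by
          rw [← Real.exp_add, hz]; congr 1; ring
        have e2 : Real.exp (10 * (Y / 64)) * Real.exp (-Y) ≤ Y * Real.exp (-z) := by
          rw [← Real.exp_add]
          have h1 : Real.exp (10 * (Y / 64) + -Y) ≤ Real.exp (-z) :=
            Real.exp_le_exp.2 (by rw [hz]; linarith)
          have h2 := Real.exp_pos (-z)
          nlinarith
        rw [e1]
        linarith
    _ = 588 * (Y * Real.exp (-z)) := by ring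
    _ ≤ 588 * (130 * (1 / Y) ^ 2) := by linarith
    _ = _ := by ring

lemma measurable_pairf (d κ s : ℝ) : Measurable fun u => ff 1 u * ff 1 (ls s (κ * ls (-s) u + d)) :=
  (measurable_ff 1).mul ((measurable_ff 1).comp ((measurable_ls s).comp
    (((measurable_ls (-s)).const_mul κ).add_const d)))

/-- **Two prime values in a unit window.** -/
theorem near_win {Y d κ s : ℝ} (hY : 3 ≤ Y) (hd : 0 ≤ d) (hκ : 1 + 1 / Y ≤ κ) (hs : |s| ≤ 1) :
    ∫ u in Ioc Y (Y + 1), ff 1 u * ff 1 (ls s (κ * ls (-s) u + d)) ≤ 150000 * (1 / Y) ^ 2 := by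
  have hY0 : 0 < Y := by linarith
  have hκ1 : 1 ≤ κ := by
    have : 0 < 1 / Y := by positivity
    linarith
  set R := ⌊Real.exp (Y / 64)⌋₊ with hR
  have hexp1 : 1 ≤ Real.exp (Y / 64) := Real.one_le_exp (by positivity)
  have hR1 : 1 ≤ R := by rw [hR, Nat.one_le_floor_iff]; exact hexp1
  have hRle : (R : ℝ) ≤ Real.exp (Y / 64) := Nat.floor_le (Real.exp_pos _).le
  have hRgt : Real.exp (Y / 64) ≤ R + 1 := (Nat.lt_floor_add_one _).le
  have hX2 : 2 ≤ Real.exp Y := exp_ge_two (by linarith)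
  set ρ := 1 / Y / (2 * (Real.exp 1 * Real.exp Y)) with hρ
  have hρ0 : 0 < ρ := by positivity
  set ε := 12 * BC (R ^ 2) ρ (Real.exp Y) with hε
  have hε0 : 0 ≤ ε := mul_nonneg (by norm_num) (BC_nonneg (by linarith))
  have hcv := psi_conv (c := Real.exp d) (κ := κ) hs hX2 (Real.one_le_exp hd) (η := 1 / Y)
    (by positivity) hκ
  rw [← hρ] at hcv
  have hsize : Real.exp (Y / 64) ≤ 3 / 4 * Real.exp Y - 1 := size_exp (by positivity) (by linarith)
  have hno : ∀ v : ℝ, Y ≤ v → (NN v).Prime → ∀ l : ℕ, l.Prime → l ≤ R → ¬ l ∣ NN v := by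
    intro v hv hp l hl hlR hd
    have h1 := (Nat.prime_dvd_prime_iff_eq hl hp).1 hd
    have h2 := (NN_bounds v).2
    have h3 := Real.exp_le_exp.2 hv
    have h4 : ((NN v : ℕ) : ℝ) ≤ R := by rw [← h1]; exact_mod_cast hlR
    have h5 := Real.exp_pos Y
    linarith
  obtain ⟨J, hJ0, hJ1, hJ2⟩ := joint_sift_log (R := R) (M := 1) hR1 one_ne_zero (ε := ε) (Y := Y) hε0
    (ψ := psi (Real.exp d) κ s) hcv.contOn
    (fun D' E hD' hD2 hE hE2 => corr_conv (Q := R ^ 2) hcv (by linarith) hρ0 (Nat.one_le_pow _ _ hR1)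
      hD' hD2 hE hE2)
    (f := fun u => ff 1 u * ff 1 (ls s (κ * ls (-s) u + d)))
    (by
      refine Measure.integrableOn_of_bounded (M := 1) (by simp)
        (measurable_pairf d κ s).aestronglyMeasurable (Eventually.of_forall fun y => ?_)
      rw [Real.norm_eq_abs, abs_of_nonneg (mul_nonneg (ff_nonneg _ _) (ff_nonneg _ _))]
      exact mul_le_one₀ (ff_le_one _ _) (ff_nonneg _ _) (ff_le_one _ _))
    (fun y _ => mul_le_one₀ (ff_le_one _ _) (ff_nonneg _ _) (ff_le_one _ _))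
    (by
      intro u hu hfu
      have hu1 : Y ≤ u := hu.1.le
      obtain ⟨k1, k2⟩ := psi_exp (u := u) hs (by linarith) hd hκ1
      have hw : u ≤ ls s (κ * ls (-s) u + d) := by
        rw [← Real.exp_le_exp, k2]; exact k1
      obtain ⟨n1, n2⟩ := NN_bounds u
      obtain ⟨n3, n4⟩ := NN_bounds (ls s (κ * ls (-s) u + d))
      rw [k2] at n3 n4
      have hp1 : (NN u).Prime := by
        by_contra hc
        simp only [ff_one, if_neg hc, zero_mul] at hfu
        exact lt_irrefl _ hfu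
      have hp2 : (NN (ls s (κ * ls (-s) u + d))).Prime := by
        by_contra hc
        simp only [ff_one, if_neg hc, mul_zero] at hfu
        exact lt_irrefl _ hfu
      exact ⟨NN u, NN (ls s (κ * ls (-s) u + d)), n1, n2, n3, n4, fun l hl hlR _ =>
        ⟨hno _ hu1 hp1 l hl hlR, hno _ (hu1.trans hw) hp2 l hl hlR⟩⟩)
  refine hJ2.trans ?_
  have he := err_np (Y := Y) (by linarith) hR1 hRle
  rw [← hρ, ← hε] at he
  have hJ : Y / 128 ≤ J := by
    have h1 : Y / 64 ≤ Real.log (R + 1) := by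
      rw [Real.le_log_iff_exp_le (by positivity)]; exact hRgt
    simp only [Nat.cast_one, Nat.totient_one, div_one, mul_one] at hJ1
    linarith
  have h2 : 4 / J ^ 2 ≤ 65536 * (1 / Y) ^ 2 := by
    have h3 : (Y / 128) ^ 2 ≤ J ^ 2 := pow_le_pow_left₀ (by positivity) hJ 2
    calc 4 / J ^ 2 ≤ 4 / (Y / 128) ^ 2 := div_le_div_of_nonneg_left (by norm_num) (by positivity) h3
      _ = _ := by field_simp; norm_num
  have h5 : 0 ≤ (1 / Y) ^ 2 := by positivity
  linarith

end Pool.Agent.X37.NP
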