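import Mathlib
import Pool.Agent.X37.NP.Near
import Pool.Agent.X10.AI.Far

set_option autoImplicit false

/-!
# The family of amplitudes: one index, pairs of indices
-/

namespace Pool.Agent.X37.NP

open MeasureTheory Set Filter Topology
open Pool.Agent.H305R2 (roughPart NN ff measurable_NN measurable_ff ff_nonneg ff_le_one
  integrableOn_ff LL LL_nonneg LL_le_one gg abs_gg_le abs_gg_le_one measurable_gg integrableOn_gg
  integrableOn_LL)
open Pool.Agent.X10.AI (bounds1 LL1_rate far_w1)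

/-- growth conditions on the logarithms of the amplitudes -/
structure Amp (L : ℕ → ℝ) : Prop where
  mono : ∀ m n : ℕ, 1 ≤ m → m ≤ n → n * L m ≤ m * L n
  pos : ∀ n : ℕ, 2 ≤ n → 0 < L n
  lower : ∃ c : ℝ, 0 < c ∧ ∀ᶠ n : ℕ in atTop, c * (n * Real.log n) ≤ L n
  upper : ∃ C : ℝ, 0 < C ∧ ∀ᶠ n : ℕ in atTop, L n ≤ C * (n * Real.log n)

lemma log_nat : Tendsto (fun n : ℕ => Real.log n) atTop atTop :=
  Real.tendsto_log_atTop.comp tendsto_natCast_atTop_atTop

/-- facts valid for large indices on a window -/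
lemma Amp.low {L : ℕ → ℝ} (hL : Amp L) {s : ℝ} (hs : |s| ≤ 1) (b0 : ℝ) :
    ∀ᶠ n : ℕ in atTop, 3 ≤ n ∧ 3 ≤ n * b0 + L n ∧ L n / 2 + 9 ≤ yy L s n b0 ∧
      (n : ℝ) ≤ yy L s n b0 ∧ yy L s n (b0 + 1) + 4 ≤ 2 * L n ∧ (n : ℝ) * (|b0| + 20) ≤ L n := by
  obtain ⟨c, hc, hlow⟩ := hL.lower
  filter_upwards [hlow, log_nat.eventually_ge_atTop ((4 * |b0| + 40) / c), eventually_ge_atTop 3]
    with n h1 h2 h3
  have hn3 : (3 : ℝ) ≤ n := by exact_mod_cast h3
  have hn0 : (0 : ℝ) < n := by linarith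
  have hb := neg_abs_le b0
  have hb' := le_abs_self b0
  have hb0 := abs_nonneg b0
  have h4 : (n : ℝ) * (4 * |b0| + 40) ≤ L n := by
    refine le_trans ?_ h1
    rw [div_le_iff₀ hc] at h2
    nlinarith
  have h5 : -((n : ℝ) * |b0|) ≤ n * b0 := by nlinarith
  have h5' : (n : ℝ) * b0 ≤ n * |b0| := by nlinarith
  have h6 : 0 ≤ (n : ℝ) * |b0| := by positivity
  have hv : 3 ≤ (n : ℝ) * b0 + L n := by nlinarith
  have h7 := (abs_le.1 (ls_near_one (s := s) hs (show 1 ≤ (n : ℝ) * b0 + L n by linarith))).1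
  have hv' : 1 ≤ (n : ℝ) * (b0 + 1) + L n := by nlinarith
  have h8 := (abs_le.1 (ls_near_one (s := s) hs hv')).2
  refine ⟨h3, hv, ?_, ?_, ?_, ?_⟩
  · unfold yy; nlinarith
  · unfold yy; nlinarith
  · unfold yy; nlinarith
  · nlinarith

section

variable {L : ℕ → ℝ} {s : ℝ}

/-- one index -/
theorem one_le (hL : Amp L) (hs : |s| ≤ 1) (b0 : ℝ) : ∃ K : ℝ, 0 < K ∧ ∃ P : ℕ, ∀ n ≥ P,
    ∫ t in Ioc b0 (b0 + 1), ff 1 (yy L s n t) ≤ K * (1 / L n) := by
  obtain ⟨K1, hK1, hb⟩ := bounds1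
  obtain ⟨P, hP⟩ := eventually_atTop.1 (hL.low hs b0)
  refine ⟨12 * K1, by positivity, P, fun n hn => ?_⟩
  obtain ⟨h3, hv, hA, hAn, -, -⟩ := hP n hn
  have hn3 : (3 : ℝ) ≤ n := by exact_mod_cast h3
  have hn0 : (0 : ℝ) < n := by linarith
  have hLn := hL.pos n (by omega)
  set A := yy L s n b0 with hAd
  have hA0 : 0 < A := by linarith
  have h1 := cov_le (L := L) (n := n) (a := b0) (b := b0 + 1) hs (by omega : 1 ≤ n) (by linarith) (by linarith)
    (F := ff 1) (ff_nonneg 1) (integrableOn_ff 1)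
  have h2 := cover (G := ff 1) (ff_nonneg 1) (integrableOn_ff 1) (A := A) (A' := yy L s n (b0 + 1))
    (B := K1 * (1 / A)) (yy_le hs (by linarith) (by linarith)) (fun Y hY => by
      have h4 := (hb Y (by linarith)).1
      have h5 : LL 1 Y = ∫ t in Set.Ioc Y (Y + 1), ff 1 t := rfl
      rw [h5] at h4
      refine h4.trans (mul_le_mul_of_nonneg_left (one_div_le_one_div_of_le hA0 hY) hK1.le))
  have h3' := yy_length (L := L) hs (show b0 ≤ b0 + 1 by linarith) (show 2 ≤ n * b0 + L n by linarith)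
  rw [← hAd] at h3'
  have h6 : yy L s n (b0 + 1) - A + 1 ≤ 3 * n := by
    have : (n : ℝ) * (b0 + 1 - b0) = n := by ring
    rw [this] at h3'
    linarith
  have hp : 0 ≤ K1 * (1 / A) := by positivity
  have h7 : 1 / A ≤ 2 * (1 / L n) := by
    calc 1 / A ≤ 1 / (L n / 2) := one_div_le_one_div_of_le (by positivity) (by linarith)
      _ = _ := by field_simp
  calc ∫ t in Ioc b0 (b0 + 1), ff 1 (yy L s n t) ≤ 2 / n * ((yy L s n (b0 + 1) - A + 1) * (K1 * (1 / A))) :=
        h1.trans (mul_le_mul_of_nonneg_left h2 (by positivity))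
    _ ≤ 2 / n * ((3 * n) * (K1 * (1 / A))) := by gcongr
    _ = 6 * K1 * (1 / A) := by field_simp; norm_num
    _ ≤ 6 * K1 * (2 * (1 / L n)) := by gcongr
    _ = _ := by ring

/-- the relation between two indices -/
lemma yy_rel (hs : |s| ≤ 1) {m n : ℕ} (hm : 1 ≤ m) {t : ℝ} (ht : 1 ≤ m * t + L m) :
    yy L s n t = ls s ((n : ℝ) / m * ls (-s) (yy L s m t) + (L n - (n : ℝ) / m * L m)) := by
  have hm0 : (0 : ℝ) < m := by exact_mod_cast hm
  unfold yy
  rw [ls_neg_ls hs ht]
  congr 1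
  field_simp
  ring

lemma Amp.le (hL : Amp L) {m n : ℕ} (hm : 2 ≤ m) (hmn : m ≤ n) : L m ≤ L n := by
  have h1 := hL.mono m n (by omega) hmn
  have h2 := hL.pos m hm
  have hm0 : (0 : ℝ) < m := by exact_mod_cast (by omega : 0 < m)
  have hmn' : (m : ℝ) ≤ n := by exact_mod_cast hmn
  have h3 : (m : ℝ) * L m ≤ n * L m := mul_le_mul_of_nonneg_right hmn' h2.le
  exact le_of_mul_le_mul_left (h3.trans h1) hm0

/-- two indices -/
theorem pair_le (hL : Amp L) (hs : |s| ≤ 1) (b0 : ℝ) : ∃ P : ℕ, ∀ m ≥ P, ∀ n : ℕ, m < n →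
    ∫ t in Ioc b0 (b0 + 1), ff 1 (yy L s m t) * ff 1 (yy L s n t) ≤ 3600000 * (1 / L m) ^ 2 := by
  obtain ⟨P, hP⟩ := eventually_atTop.1 (hL.low hs b0)
  refine ⟨P, fun m hm n hmn => ?_⟩
  obtain ⟨h3, hv, hA, hAn, -, -⟩ := hP m hm
  have hm3 : (3 : ℝ) ≤ m := by exact_mod_cast h3
  have hm0 : (0 : ℝ) < m := by linarith
  have hLm := hL.pos m (by omega)
  have hmn1 : (m : ℝ) + 1 ≤ n := by exact_mod_cast hmn
  set A := yy L s m b0 with hAd
  have hA0 : 0 < A := by linarith
  set κ := (n : ℝ) / m with hκ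
  set d := L n - κ * L m with hd
  have hd0 : 0 ≤ d := by
    have h1 := hL.mono m n (by omega) hmn.le
    rw [hd, hκ, sub_nonneg, div_mul_eq_mul_div, div_le_iff₀ hm0]
    linarith
  have hκ1 : 1 + 1 / (m : ℝ) ≤ κ := by
    rw [hκ, le_div_iff₀ hm0]
    have : (1 + 1 / (m : ℝ)) * m = m + 1 := by field_simp
    rw [this]; exact hmn1
  set F : ℝ → ℝ := fun u => ff 1 u * ff 1 (ls s (κ * ls (-s) u + d)) with hF
  have hF0 : ∀ u, 0 ≤ F u := fun u => mul_nonneg (ff_nonneg _ _) (ff_nonneg _ _)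
  have hFi : ∀ u v, IntegrableOn F (Ioc u v) := fun u v => by
    refine Measure.integrableOn_of_bounded (M := 1) (by simp)
      (measurable_pairf d κ s).aestronglyMeasurable (Eventually.of_forall fun y => ?_)
    rw [Real.norm_eq_abs, abs_of_nonneg (hF0 y)]
    exact mul_le_one₀ (ff_le_one _ _) (ff_nonneg _ _) (ff_le_one _ _)
  have e : ∫ t in Ioc b0 (b0 + 1), ff 1 (yy L s m t) * ff 1 (yy L s n t) =
      ∫ t in Ioc b0 (b0 + 1), F (yy L s m t) := by
    refine setIntegral_congr_fun measurableSet_Ioc fun t ht => ?_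
    have h1 : (m : ℝ) * b0 ≤ m * t := mul_le_mul_of_nonneg_left ht.1.le hm0.le
    simp only [hF]
    rw [yy_rel (L := L) (n := n) hs (by omega : 1 ≤ m) (show 1 ≤ (m : ℝ) * t + L m by linarith)]
  rw [e]
  have h1 := cov_le (L := L) (n := m) (a := b0) (b := b0 + 1) hs (by omega : 1 ≤ m) (by linarith) (by linarith)
    (F := F) hF0 hFi
  have h2 := cover (G := F) hF0 hFi (A := A) (A' := yy L s m (b0 + 1))
    (B := 150000 * (1 / A) ^ 2) (yy_le hs (by linarith) (by linarith)) (fun Y hY => by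
      have hY0 : 0 < Y := by linarith
      have h4 := near_win (Y := Y) (d := d) (κ := κ) (s := s) (by linarith) hd0 (by
        have h5 : 1 / Y ≤ 1 / (m : ℝ) := one_div_le_one_div_of_le hm0 (by linarith)
        linarith) hs
      refine h4.trans ?_
      have h5 : 1 / Y ≤ 1 / A := one_div_le_one_div_of_le hA0 hY
      have h6 : 0 ≤ 1 / Y := by positivity
      gcongr)
  have h3' := yy_length (L := L) hs (show b0 ≤ b0 + 1 by linarith) (show 2 ≤ m * b0 + L m by linarith)
  rw [← hAd] at h3'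
  have h6 : yy L s m (b0 + 1) - A + 1 ≤ 3 * m := by
    have : (m : ℝ) * (b0 + 1 - b0) = m := by ring
    rw [this] at h3'
    linarith
  have h7 : 1 / A ≤ 2 * (1 / L m) := by
    calc 1 / A ≤ 1 / (L m / 2) := one_div_le_one_div_of_le (by positivity) (by linarith)
      _ = _ := by field_simp
  have h8 : 0 ≤ 1 / A := by positivity
  calc ∫ t in Ioc b0 (b0 + 1), F (yy L s m t) ≤
      2 / m * ((yy L s m (b0 + 1) - A + 1) * (150000 * (1 / A) ^ 2)) :=
        h1.trans (mul_le_mul_of_nonneg_left h2 (by positivity))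
    _ ≤ 2 / m * ((3 * m) * (150000 * (1 / A) ^ 2)) := by gcongr
    _ = 900000 * (1 / A) ^ 2 := by field_simp; norm_num
    _ ≤ 900000 * (2 * (1 / L m)) ^ 2 := by gcongr
    _ = _ := by ring

/-- distant indices -/
theorem far_le (hL : Amp L) (hs : |s| ≤ 1) (b0 : ℝ) : ∃ κ0 K : ℝ, 0 < κ0 ∧ 0 < K ∧ ∃ P : ℕ,
    ∀ m ≥ P, ∀ n : ℕ, (m : ℝ) ≤ κ0 * n / Real.log n → m < n →
    |∫ t in Ioc b0 (b0 + 1), gg 1 (yy L s m t) * gg 1 (yy L s n t)| ≤ K * (1 / (n * L n)) := by
  obtain ⟨κ, K2, Y0, hκ, hK2, hfar⟩ := far_w1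
  obtain ⟨K1, hK1, hb⟩ := bounds1
  obtain ⟨c, hc, hlow⟩ := hL.lower
  obtain ⟨C, hC, hup⟩ := hL.upper
  set κ0 := min (1 / 2) (κ * c / (8 * C)) with hκ0
  have hκ0p : 0 < κ0 := by rw [hκ0]; exact lt_min (by norm_num) (by positivity)
  have hκ0h : κ0 ≤ 1 / 2 := min_le_left _ _
  have hκ0c : κ0 ≤ κ * c / (8 * C) := min_le_right _ _
  obtain ⟨P, hP⟩ := eventually_atTop.1 ((hL.low hs b0).and (hlow.and (hup.and
    ((log_nat.eventually_ge_atTop 1).and
    ((tendsto_natCast_atTop_atTop (R := ℝ)).eventually_ge_atTop Y0)))))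
  have hlogsq : ∀ᶠ n : ℕ in atTop, 2 * C * Real.log n ≤ n := by
    have h1 : Tendsto (fun x : ℝ => Real.log x / x) atTop (𝓝 0) := by
      have := Real.tendsto_pow_log_div_mul_add_atTop 1 0 1 one_ne_zero
      simpa using this
    have h2 := h1.comp (tendsto_natCast_atTop_atTop (R := ℝ))
    filter_upwards [h2.eventually_le_const (show 0 < 1 / (2 * C) by positivity),
      eventually_ge_atTop 1] with n hn hn1
    have hn0 : (0 : ℝ) < n := by exact_mod_cast hn1
    simp only [Function.comp] at hn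
    rw [div_le_div_iff₀ hn0 (by positivity)] at hn
    linarith
  obtain ⟨P', hP'⟩ := eventually_atTop.1 hlogsq
  refine ⟨κ0, 16 + 4 * K2 + 8 * K1, hκ0p, by positivity, max P P', fun m hm n hmn hlt => ?_⟩
  obtain ⟨⟨h3, hv, hA, hAn, hA', hLT⟩, -, hupm, -, -⟩ := hP m ((le_max_left _ _).trans hm)
  obtain ⟨⟨k3, kv, kA, kAn, kA', kLT⟩, klow, kup, klog, kY0⟩ := hP n (by
    have := (le_max_left P P').trans hm
    omega)
  have klsq := hP' n (by
    have := (le_max_right P P').trans hm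
    omega)
  have hm3 : (3 : ℝ) ≤ m := by exact_mod_cast h3
  have hm0 : (0 : ℝ) < m := by linarith
  have hmn' : (m : ℝ) < n := by exact_mod_cast hlt
  have hn0 : (0 : ℝ) < n := by linarith
  have hLm := hL.pos m (by omega)
  have hLn := hL.pos n (by omega)
  have hlogn : 0 < Real.log n := by linarith
  have hmh : (m : ℝ) ≤ n / 2 := by
    refine hmn.trans ?_
    rw [div_le_iff₀ hlogn]
    nlinarith
  set A := yy L s n b0 with hAd
  set A' := yy L s n (b0 + 1) with hA'd
  have hA0 : 0 < A := by linarith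
  set r := (m : ℝ) / n with hr
  have hr0 : 0 ≤ r := by positivity
  have hrh : r ≤ 1 / 2 := by rw [hr, div_le_iff₀ hn0]; linarith
  set d := L m - r * L n with hd
  set w : ℝ → ℝ := fun u => ls s (r * ls (-s) u + d) with hw
  have hs' : |(-s)| ≤ 1 := by rw [abs_neg]; exact hs
  have hwm : Measurable w := (measurable_ls s).comp (((measurable_ls (-s)).const_mul r).add_const d)
  -- the argument at the end points
  have hleft : ls (-s) A = n * b0 + L n := ls_neg_ls hs (by linarith)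
  have hright : ls (-s) A' = n * (b0 + 1) + L n := ls_neg_ls hs (by nlinarith)
  have hrn : r * n = m := by rw [hr]; field_simp
  have hargl : ∀ u, A - 1 ≤ u → 1 ≤ r * ls (-s) u + d := by
    intro u hu
    have h1 : ls (-s) (A - 1) ≤ ls (-s) u := ls_mono hs' (by linarith) hu
    have h2 := ls_lip hs' (show 1 ≤ A - 1 by linarith) (show A - 1 ≤ A by linarith)
    have h4 : n * b0 + L n - 2 ≤ ls (-s) u := by linarith
    have h5 : r * (n * b0 + L n - 2) ≤ r * ls (-s) u := mul_le_mul_of_nonneg_left h4 hr0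
    have h6 : r * (n * b0 + L n - 2) + d = m * b0 + L m - 2 * r := by
      rw [hd, ← hrn]; ring
    linarith
  have hargr : ∀ u, A - 1 ≤ u → u ≤ A' + 1 → w u ≤ 2 * L m := by
    intro u hu hu'
    have h0 := hargl u hu
    have h1 : ls (-s) u ≤ ls (-s) (A' + 1) := ls_mono hs' (by linarith) hu'
    have hAA' : A ≤ A' := yy_le hs (by linarith) (by linarith)
    have h2 := ls_lip hs' (show 1 ≤ A' by linarith) (show A' ≤ A' + 1 by linarith)
    have h4 : ls (-s) u ≤ n * (b0 + 1) + L n + 2 := by linarith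
    have h5 : r * ls (-s) u ≤ r * (n * (b0 + 1) + L n + 2) := mul_le_mul_of_nonneg_left h4 hr0
    have h6 : r * (n * (b0 + 1) + L n + 2) + d = m * (b0 + 1) + L m + 2 * r := by
      rw [hd, ← hrn]; ring
    have h7 := (abs_le.1 (ls_near_one (s := s) hs h0)).2
    have h8 : (m : ℝ) * b0 ≤ m * |b0| := mul_le_mul_of_nonneg_left (le_abs_self b0) hm0.le
    simp only [hw]
    nlinarith
  set F : ℝ → ℝ := fun u => gg 1 (w u) * gg 1 u with hF
  have hFm : Measurable F := ((measurable_gg 1).comp hwm).mul (measurable_gg 1)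
  have hFg : ∀ u, |F u| ≤ |gg 1 u| := fun u => by
    simp only [hF]
    rw [abs_mul]
    exact mul_le_of_le_one_left (abs_nonneg _) (abs_gg_le_one 1 _)
  have hF1 : ∀ u, |F u| ≤ 1 := fun u => (hFg u).trans (abs_gg_le_one 1 u)
  have e : ∫ t in Ioc b0 (b0 + 1), gg 1 (yy L s m t) * gg 1 (yy L s n t) =
      ∫ t in Ioc b0 (b0 + 1), F (yy L s n t) := by
    refine setIntegral_congr_fun measurableSet_Ioc fun t ht => ?_
    have h1 : (n : ℝ) * b0 ≤ n * t := mul_le_mul_of_nonneg_left ht.1.le hn0.le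
    simp only [hF, hw]
    rw [← yy_rel (L := L) (n := m) hs (by omega : 1 ≤ n) (show 1 ≤ (n : ℝ) * t + L n by linarith)]
  rw [e]
  have hAA' : A ≤ A' := yy_le hs (by linarith) (by linarith)
  have hc1 := cov_abs (L := L) (a := b0) (b := b0 + 1) hs (by omega : 1 ≤ n) (by linarith) (by linarith) hFm hF1
  rw [← hAd, ← hA'd] at hc1
  have hc2 := cover_signed hFm hF1 (A := A) (A' := A') (B := K2 * (1 / A ^ 2)) (B' := 2 * K1 * (1 / A))
    hAA' (fun Y hY hY' => by
      have hY0 : 0 < Y := by linarith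
      have h1 := hfar w Y hwm (by linarith) (by
        intro a ha b hb' hab
        have ha' : A - 1 ≤ a := by linarith [ha.1]
        refine ls_mono hs (hargl a ha') ?_
        have := ls_mono hs' (show 1 ≤ a by linarith) hab
        have := mul_le_mul_of_nonneg_left this hr0
        linarith) (by
        intro a ha b hb'
        have ha' : A - 1 ≤ a := by linarith [ha.1]
        have hb'' : A - 1 ≤ b := by linarith [hb'.1]
        have h2 := ls_lip_abs hs (hargl a ha') (hargl b hb'')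
        have h4 := ls_lip_abs hs' (show 1 ≤ a by linarith) (show 1 ≤ b by linarith)
        have e2 : r * ls (-s) a + d - (r * ls (-s) b + d) = r * (ls (-s) a - ls (-s) b) := by ring
        rw [e2, abs_mul, abs_of_nonneg hr0] at h2
        have h5 : r * |ls (-s) a - ls (-s) b| ≤ 1 / 2 * (2 * |a - b|) :=
          mul_le_mul hrh h4 (abs_nonneg _) (by norm_num)
        calc |w a - w b| ≤ 2 * (r * |ls (-s) a - ls (-s) b|) := h2
          _ ≤ 2 * (1 / 2 * (2 * |a - b|)) := by linarith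
          _ = _ := by ring) (by
        have h2 := hargr (Y + 2) (by linarith) (by linarith)
        refine h2.trans ?_
        have hlogY : 0 < Real.log Y := Real.log_pos (by linarith)
        have hlogY2 : Real.log Y ≤ 2 * Real.log n := by
          have h4 : Y ≤ n * n := by
            have h5 : Y ≤ 2 * L n := by linarith
            have h6 : L n ≤ C * (n * Real.log n) := kup
            have h7 : C * (n * Real.log n) * 2 = n * (2 * C * Real.log n) := by ring
            nlinarith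
          calc Real.log Y ≤ Real.log (n * n) := Real.log_le_log hY0 h4
            _ = _ := by rw [Real.log_mul hn0.ne' hn0.ne']; ring
        rw [le_div_iff₀ hlogY]
        -- `2 L m log Y ≤ κ Y`
        have h4 : L m ≤ C * (κ0 * n) := by
          refine hupm.trans ?_
          refine mul_le_mul_of_nonneg_left ?_ hC.le
          have h5 : Real.log m ≤ Real.log n := Real.log_le_log hm0 hmn'.le
          rw [le_div_iff₀ hlogn] at hmn
          calc (m : ℝ) * Real.log m ≤ m * Real.log n := mul_le_mul_of_nonneg_left h5 hm0.le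
            _ ≤ _ := hmn
        have h5 : c * (n * Real.log n) / 2 ≤ Y := by linarith
        have h6 : C * κ0 ≤ κ * c / 8 := by
          calc C * κ0 ≤ C * (κ * c / (8 * C)) := mul_le_mul_of_nonneg_left hκ0c hC.le
            _ = _ := by field_simp
        calc 2 * L m * Real.log Y ≤ 2 * (C * (κ0 * n)) * (2 * Real.log n) := by gcongr
          _ = (C * κ0) * (4 * (n * Real.log n)) := by ring
          _ ≤ (κ * c / 8) * (4 * (n * Real.log n)) := mul_le_mul_of_nonneg_right h6 (by positivity)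
          _ = κ * (c * (n * Real.log n) / 2) := by ring
          _ ≤ κ * Y := mul_le_mul_of_nonneg_left h5 hκ.le)
      rw [← intervalIntegral.integral_of_le (by linarith)]
      refine h1.trans (mul_le_mul_of_nonneg_left ?_ hK2.le)
      exact one_div_le_one_div_of_le (by positivity) (pow_le_pow_left₀ hA0.le hY 2))
    (by positivity) (fun Y hY => by
      have hY0 : 0 < Y := by linarith
      have h1 := (hb Y (by linarith)).2.2 (Y + 1) (by linarith) (by linarith)
      have h2 : ∫ u in Ioc Y (Y + 1), |F u| ≤ ∫ u in Ioc Y (Y + 1), |gg 1 u| := by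
        refine setIntegral_mono_on ?_ (integrableOn_gg 1 _ _).abs measurableSet_Ioc fun u _ => hFg u
        exact Measure.integrableOn_of_bounded (M := 1) (by simp) hFm.abs.aestronglyMeasurable
          (Eventually.of_forall fun u => by rw [Real.norm_eq_abs, abs_abs]; exact hF1 u)
      refine h2.trans (h1.trans ?_)
      have h4 : 1 / Y ≤ 1 / A := one_div_le_one_div_of_le hA0 hY
      have h5 : 1 / Y ≤ 1 := by rw [div_le_one hY0]; linarith
      have h6 : 0 < 1 / Y := by positivity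
      calc K1 * (Y + 1 - Y + 1 / Y) * (1 / Y) ≤ K1 * 2 * (1 / A) := by
            have : Y + 1 - Y + 1 / Y ≤ 2 := by linarith
            have h0 : 0 ≤ Y + 1 - Y + 1 / Y := by linarith
            gcongr
        _ = _ := by ring)
  have hlen := yy_length (L := L) hs (show b0 ≤ b0 + 1 by linarith) (show 2 ≤ n * b0 + L n by linarith)
  rw [← hAd, ← hA'd] at hlen
  have hlen' : A' - A ≤ 2 * n := by
    have : (n : ℝ) * (b0 + 1 - b0) = n := by ring
    rw [this] at hlen
    exact hlen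
  -- bounds in terms of `1 / (n A)`
  have hnA : 1 / A ^ 2 ≤ 1 / (n * A) :=
    one_div_le_one_div_of_le (by positivity) (by nlinarith)
  have hexp : Real.exp (-A) ≤ 2 * (1 / (n * A)) := by
    have h1 : A ^ 2 / 2 ≤ Real.exp A := by
      have := Real.quadratic_le_exp_of_nonneg hA0.le
      nlinarith
    calc Real.exp (-A) = 1 / Real.exp A := by rw [Real.exp_neg, one_div]
      _ ≤ 1 / (A ^ 2 / 2) := one_div_le_one_div_of_le (by positivity) h1
      _ = 2 * (1 / A ^ 2) := by field_simp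
      _ ≤ _ := by linarith
  have hinv : 1 / (n * A) ≤ 2 * (1 / (n * L n)) := by
    calc 1 / (n * A) ≤ 1 / (n * (L n / 2)) := by
          refine one_div_le_one_div_of_le (by positivity) ?_
          exact mul_le_mul_of_nonneg_left (by linarith) hn0.le
      _ = _ := by field_simp
  have h9 : 1 / (n : ℝ) * ((A' - A) * (K2 * (1 / A ^ 2)) + 2 * K1 * (1 / A)) ≤
      (2 * K2 + 2 * K1) * (1 / (n * A)) := by
    have h10 : (A' - A) * (K2 * (1 / A ^ 2)) ≤ (2 * n) * (K2 * (1 / (n * A))) := by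
      refine mul_le_mul hlen' (mul_le_mul_of_nonneg_left hnA hK2.le) (by positivity) (by positivity)
    calc 1 / (n : ℝ) * ((A' - A) * (K2 * (1 / A ^ 2)) + 2 * K1 * (1 / A)) ≤
          1 / (n : ℝ) * ((2 * n) * (K2 * (1 / (n * A))) + 2 * K1 * (1 / A)) := by gcongr
      _ = _ := by field_simp
  have h10 : |1 / (n : ℝ) * ∫ u in Ioc A A', F u| ≤
      1 / (n : ℝ) * ((A' - A) * (K2 * (1 / A ^ 2)) + 2 * K1 * (1 / A)) := by
    rw [abs_mul, abs_of_pos (by positivity : 0 < 1 / (n : ℝ))]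
    exact mul_le_mul_of_nonneg_left hc2 (by positivity)
  have h11 : b0 + 1 - b0 = 1 := by ring
  rw [h11, mul_one] at hc1
  have h12 := abs_sub_abs_le_abs_sub (∫ t in Ioc b0 (b0 + 1), F (yy L s n t))
    (1 / (n : ℝ) * ∫ u in Ioc A A', F u)
  have hq : 0 ≤ 1 / ((n : ℝ) * L n) := by positivity
  nlinarith

end

end Pool.Agent.X37.NP
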