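import Mathlib
import Pool.Agent.X37.NP.Fam

set_option autoImplicit false

/-!
# Covariances and means
-/

namespace Pool.Agent.X37.NP

open MeasureTheory Set Filter Topology
open Pool.Agent.H305R2 (roughPart NN ff measurable_NN measurable_ff ff_nonneg ff_le_one
  integrableOn_ff LL LL_nonneg LL_le_one gg abs_gg_le abs_gg_le_one measurable_gg integrableOn_gg
  integrableOn_LL)
open Pool.Agent.X10.AI (bounds1 LL1_rate)

/-- the centred indicator -/
noncomputable def GG (L : ℕ → ℝ) (s : ℝ) (n : ℕ) (t : ℝ) : ℝ := gg 1 (yy L s n t)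

section

variable {L : ℕ → ℝ} {s : ℝ}

lemma measurable_GG (n : ℕ) : Measurable (GG L s n) := (measurable_gg 1).comp (measurable_yy L s n)

lemma abs_GG_le_one (n : ℕ) (t : ℝ) : |GG L s n t| ≤ 1 := abs_gg_le_one 1 _

lemma int_of_bdd {f : ℝ → ℝ} (hf : Measurable f) {M : ℝ} (hM : ∀ x, |f x| ≤ M) (a b : ℝ) :
    IntegrableOn f (Ioc a b) :=
  Measure.integrableOn_of_bounded (M := M) (by simp) hf.aestronglyMeasurable
    (Eventually.of_forall fun u => by rw [Real.norm_eq_abs]; exact hM u)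

/-- the local mean at an index -/
lemma LL_le (hL : Amp L) (hs : |s| ≤ 1) (b0 : ℝ) : ∃ K : ℝ, 0 < K ∧ ∃ P : ℕ, ∀ n ≥ P,
    ∀ t ∈ Ioc b0 (b0 + 1), LL 1 (yy L s n t) ≤ K * (1 / L n) := by
  obtain ⟨K1, hK1, hb⟩ := bounds1
  obtain ⟨P, hP⟩ := eventually_atTop.1 (hL.low hs b0)
  refine ⟨2 * K1, by positivity, P, fun n hn t ht => ?_⟩
  obtain ⟨h3, hv, hA, hAn, -, -⟩ := hP n hn
  have hLn := hL.pos n (by omega)
  have h1 : yy L s n b0 ≤ yy L s n t := yy_le hs ht.1.le (by linarith)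
  have h2 := (hb (yy L s n t) (by linarith)).1
  refine h2.trans ?_
  have h7 : 1 / yy L s n t ≤ 2 * (1 / L n) := by
    calc 1 / yy L s n t ≤ 1 / (L n / 2) := one_div_le_one_div_of_le (by positivity) (by linarith)
      _ = _ := by field_simp
  calc K1 * (1 / yy L s n t) ≤ K1 * (2 * (1 / L n)) := mul_le_mul_of_nonneg_left h7 hK1.le
    _ = _ := by ring

/-- the diagonal -/
lemma diag_le (hL : Amp L) (hs : |s| ≤ 1) (b0 : ℝ) : ∃ K : ℝ, 0 < K ∧ ∃ P : ℕ, ∀ n ≥ P,
    ∫ t in Ioc b0 (b0 + 1), (GG L s n t) ^ 2 ≤ K * (1 / L n) := by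
  obtain ⟨K1, hK1, P1, h1⟩ := one_le hL hs b0
  obtain ⟨K2, hK2, P2, h2⟩ := LL_le hL hs b0
  refine ⟨K1 + K2, by positivity, max P1 P2, fun n hn => ?_⟩
  have hf : IntegrableOn (fun t => ff 1 (yy L s n t)) (Ioc b0 (b0 + 1)) :=
    int_of_bdd (f := fun t => ff 1 (yy L s n t)) ((measurable_ff 1).comp (measurable_yy L s n)) (M := 1)
      (fun x => by rw [abs_of_nonneg (ff_nonneg _ _)]; exact ff_le_one _ _) _ _
  have hc : IntegrableOn (fun _ : ℝ => K2 * (1 / L n)) (Ioc b0 (b0 + 1)) :=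
    integrableOn_const (by simp)
  calc ∫ t in Ioc b0 (b0 + 1), (GG L s n t) ^ 2 ≤
      ∫ t in Ioc b0 (b0 + 1), (ff 1 (yy L s n t) + K2 * (1 / L n)) := by
        refine setIntegral_mono_on ?_ (hf.add hc) measurableSet_Ioc fun t ht => ?_
        · refine int_of_bdd (f := fun t => (GG L s n t) ^ 2) ((measurable_GG n).pow_const 2) (M := 1)
            (fun x => ?_) _ _
          rw [abs_pow]
          exact pow_le_one₀ (abs_nonneg _) (abs_GG_le_one n x)
        · have h3 := abs_GG_le_one (L := L) (s := s) n t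
          have h4 : |GG L s n t| ≤ ff 1 (yy L s n t) + LL 1 (yy L s n t) := abs_gg_le 1 _
          have h5 := h2 n ((le_max_right _ _).trans hn) t ht
          have h6 : (GG L s n t) ^ 2 ≤ |GG L s n t| := by
            rw [← sq_abs]
            nlinarith [abs_nonneg (GG L s n t)]
          linarith
    _ = (∫ t in Ioc b0 (b0 + 1), ff 1 (yy L s n t)) + K2 * (1 / L n) := by
        rw [integral_add hf hc, setIntegral_const, smul_eq_mul, Real.volume_real_Ioc_of_le (by linarith)]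
        ring
    _ ≤ _ := by
        have := h1 n ((le_max_left _ _).trans hn)
        linarith

/-- the covariance of any two indices -/
lemma cov_near (hL : Amp L) (hs : |s| ≤ 1) (b0 : ℝ) : ∃ K : ℝ, 0 < K ∧ ∃ P : ℕ, ∀ m ≥ P,
    ∀ n : ℕ, m < n → |∫ t in Ioc b0 (b0 + 1), GG L s m t * GG L s n t| ≤ K * (1 / L m) ^ 2 := by
  obtain ⟨K1, hK1, P1, h1⟩ := one_le hL hs b0
  obtain ⟨K2, hK2, P2, h2⟩ := LL_le hL hs b0
  obtain ⟨P3, h3⟩ := pair_le hL hs b0
  refine ⟨3600000 + 2 * K1 * K2 + K2 ^ 2, by positivity, P1 + P2 + P3 + 2, fun m hm n hmn => ?_⟩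
  have hLm := hL.pos m (by omega)
  have hLmn := hL.le (m := m) (n := n) (by omega) hmn.le
  have hLn := hL.pos n (by omega)
  set a := 1 / L m with ha
  have ha0 : 0 < a := by positivity
  have han : 1 / L n ≤ a := one_div_le_one_div_of_le hLm hLmn
  have hfi : ∀ k, IntegrableOn (fun t => ff 1 (yy L s k t)) (Ioc b0 (b0 + 1)) := fun k =>
    int_of_bdd (f := fun t => ff 1 (yy L s k t)) ((measurable_ff 1).comp (measurable_yy L s k)) (M := 1)
      (fun x => by rw [abs_of_nonneg (ff_nonneg _ _)]; exact ff_le_one _ _) _ _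
  have hpi : IntegrableOn (fun t => ff 1 (yy L s m t) * ff 1 (yy L s n t)) (Ioc b0 (b0 + 1)) :=
    int_of_bdd (f := fun t => ff 1 (yy L s m t) * ff 1 (yy L s n t))
      (((measurable_ff 1).comp (measurable_yy L s m)).mul
      ((measurable_ff 1).comp (measurable_yy L s n))) (M := 1)
      (fun x => by
        rw [abs_of_nonneg (mul_nonneg (ff_nonneg _ _) (ff_nonneg _ _))]
        exact mul_le_one₀ (ff_le_one _ _) (ff_nonneg _ _) (ff_le_one _ _)) _ _
  have hc : IntegrableOn (fun _ : ℝ => (K2 * a) ^ 2) (Ioc b0 (b0 + 1)) := integrableOn_const (by simp)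
  have i1 : IntegrableOn (fun t => (K2 * a) * ff 1 (yy L s m t)) (Ioc b0 (b0 + 1)) :=
    (hfi m).const_mul _
  have i2 : IntegrableOn (fun t => (K2 * a) * ff 1 (yy L s n t)) (Ioc b0 (b0 + 1)) :=
    (hfi n).const_mul _
  have i3 : IntegrableOn (fun t => ff 1 (yy L s m t) * ff 1 (yy L s n t) +
      (K2 * a) * ff 1 (yy L s m t)) (Ioc b0 (b0 + 1)) := hpi.add i1
  have i4 : IntegrableOn (fun t => ff 1 (yy L s m t) * ff 1 (yy L s n t) +
      (K2 * a) * ff 1 (yy L s m t) + (K2 * a) * ff 1 (yy L s n t)) (Ioc b0 (b0 + 1)) := i3.add i2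
  have hsum : IntegrableOn (fun t => ff 1 (yy L s m t) * ff 1 (yy L s n t) +
      (K2 * a) * ff 1 (yy L s m t) + (K2 * a) * ff 1 (yy L s n t) + (K2 * a) ^ 2) (Ioc b0 (b0 + 1)) :=
    i4.add hc
  refine abs_integral_le_integral_abs.trans ?_
  have hstep : ∫ t in Ioc b0 (b0 + 1), |GG L s m t * GG L s n t| ≤
      ∫ t in Ioc b0 (b0 + 1), (ff 1 (yy L s m t) * ff 1 (yy L s n t) +
      (K2 * a) * ff 1 (yy L s m t) + (K2 * a) * ff 1 (yy L s n t) + (K2 * a) ^ 2) := by
    refine setIntegral_mono_on ?_ hsum measurableSet_Ioc fun t ht => ?_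
    · refine int_of_bdd (f := fun t => |GG L s m t * GG L s n t|)
        ((measurable_GG m).mul (measurable_GG n)).abs (M := 1) (fun x => ?_) _ _
      rw [abs_abs, abs_mul]
      exact mul_le_one₀ (abs_GG_le_one m x) (abs_nonneg _) (abs_GG_le_one n x)
    · have k1 : |GG L s m t| ≤ ff 1 (yy L s m t) + LL 1 (yy L s m t) := abs_gg_le 1 _
      have k2 : |GG L s n t| ≤ ff 1 (yy L s n t) + LL 1 (yy L s n t) := abs_gg_le 1 _
      have k3 := h2 m (by omega) t ht
      have k4 := h2 n (by omega) t ht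
      have k5 : K2 * (1 / L n) ≤ K2 * a := mul_le_mul_of_nonneg_left han hK2.le
      have k6 : |GG L s m t| ≤ ff 1 (yy L s m t) + K2 * a := by linarith
      have k7 : |GG L s n t| ≤ ff 1 (yy L s n t) + K2 * a := by linarith
      rw [abs_mul]
      have k8 := mul_le_mul k6 k7 (abs_nonneg _) (by
        have := ff_nonneg 1 (yy L s m t)
        positivity)
      refine k8.trans (le_of_eq ?_)
      ring
  refine hstep.trans ?_
  rw [integral_add i4 hc, integral_add i3 i2, integral_add hpi i1, integral_const_mul,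
    integral_const_mul, setIntegral_const, smul_eq_mul, Real.volume_real_Ioc_of_le (by linarith)]
  have j1 := h3 m (by omega) n hmn
  have j2 := h1 m (by omega)
  have j3 := (h1 n (by omega)).trans (mul_le_mul_of_nonneg_left han hK1.le)
  rw [← ha] at j1 j2
  have j4 := mul_le_mul_of_nonneg_left j2 (show 0 ≤ K2 * a by positivity)
  have j5 := mul_le_mul_of_nonneg_left j3 (show 0 ≤ K2 * a by positivity)
  have e : b0 + 1 - b0 = 1 := by ring
  rw [e, one_mul]
  nlinarith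

/-- **Row sums of the covariances.** -/
theorem row_le (hL : Amp L) (hs : |s| ≤ 1) (b0 : ℝ) : ∃ C : ℝ, 0 < C ∧ ∃ P : ℕ, ∀ n ≥ P,
    ∀ T : Finset ℕ, (∀ m ∈ T, P ≤ m ∧ m < n) →
    ∑ m ∈ T, |∫ t in Ioc b0 (b0 + 1), GG L s m t * GG L s n t| ≤ C * (1 / L n) := by
  classical
  obtain ⟨κ0, K1, hκ0, hK1, P1, hfar⟩ := far_le hL hs b0
  obtain ⟨K2, hK2, P2, hnear⟩ := cov_near hL hs b0
  obtain ⟨c, hc, hlow⟩ := hL.lower
  obtain ⟨C, hC, hup⟩ := hL.upper
  obtain ⟨P3, hP3⟩ := eventually_atTop.1 (hlow.and (hup.and (log_nat.eventually_ge_atTop 1)))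
  have hsq : ∀ᶠ n : ℕ in atTop, Real.sqrt n ≤ κ0 * n / Real.log n := by
    have h1 : Tendsto (fun x : ℝ => Real.log x / Real.sqrt x) atTop (𝓝 0) := by
      have h := isLittleO_log_rpow_atTop (show (0 : ℝ) < 1 / 2 by norm_num)
      refine (h.tendsto_div_nhds_zero).congr fun x => ?_
      rw [Real.sqrt_eq_rpow]
    have h2 := h1.comp (tendsto_natCast_atTop_atTop (R := ℝ))
    filter_upwards [h2.eventually_le_const hκ0, eventually_ge_atTop 2] with n hn hn2
    simp only [Function.comp] at hn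
    have hn2' : (2 : ℝ) ≤ n := by exact_mod_cast hn2
    have hn0 : (0 : ℝ) < n := by linarith
    have hs0 : 0 < Real.sqrt n := Real.sqrt_pos.2 hn0
    have hl0 : 0 < Real.log n := Real.log_pos (by linarith)
    rw [div_le_iff₀ hs0] at hn
    rw [le_div_iff₀ hl0]
    calc Real.sqrt n * Real.log n ≤ Real.sqrt n * (κ0 * Real.sqrt n) :=
          mul_le_mul_of_nonneg_left hn hs0.le
      _ = κ0 * (Real.sqrt n * Real.sqrt n) := by ring
      _ = κ0 * n := by rw [Real.mul_self_sqrt hn0.le]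
  obtain ⟨P4, hP4⟩ := eventually_atTop.1 hsq
  refine ⟨K1 + 8 * K2 * C / (c ^ 2 * κ0), by positivity, P1 + P2 + P3 + P4 + 3, fun n hn T hT => ?_⟩
  obtain ⟨hln, hun, hlogn1⟩ := hP3 n (by omega)
  have hn3 : (3 : ℝ) ≤ n := by exact_mod_cast (by omega : 3 ≤ n)
  have hn0 : (0 : ℝ) < n := by linarith
  have hlogn : 0 < Real.log n := by linarith
  have hLn := hL.pos n (by omega)
  set x := κ0 * n / Real.log n with hx
  have hxsq := hP4 n (by omega)
  rw [← hx] at hxsq
  have hx0 : 0 < x := by positivity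
  rw [← Finset.sum_filter_add_sum_filter_not T (fun m : ℕ => (m : ℝ) ≤ x)]
  have hA : ∑ m ∈ T.filter (fun m : ℕ => (m : ℝ) ≤ x),
      |∫ t in Ioc b0 (b0 + 1), GG L s m t * GG L s n t| ≤ K1 * (1 / L n) := by
    have h1 : ∀ m ∈ T.filter (fun m : ℕ => (m : ℝ) ≤ x),
        |∫ t in Ioc b0 (b0 + 1), GG L s m t * GG L s n t| ≤ K1 * (1 / (n * L n)) := by
      intro m hm
      rw [Finset.mem_filter] at hm
      obtain ⟨h2, h3⟩ := hT m hm.1
      exact hfar m (by omega) n hm.2 h3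
    refine (Finset.sum_le_sum h1).trans ?_
    rw [Finset.sum_const, nsmul_eq_mul]
    have h2 : ((T.filter (fun m : ℕ => (m : ℝ) ≤ x)).card : ℝ) ≤ n := by
      have : (T.filter (fun m : ℕ => (m : ℝ) ≤ x)) ⊆ Finset.range n := by
        intro m hm
        rw [Finset.mem_filter] at hm
        exact Finset.mem_range.2 (hT m hm.1).2
      have := Finset.card_le_card this
      rw [Finset.card_range] at this
      exact_mod_cast this
    calc ((T.filter (fun m : ℕ => (m : ℝ) ≤ x)).card : ℝ) * (K1 * (1 / (n * L n))) ≤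
          n * (K1 * (1 / (n * L n))) := mul_le_mul_of_nonneg_right h2 (by positivity)
      _ = _ := by field_simp
  have hB : ∑ m ∈ T.filter (fun m : ℕ => ¬ (m : ℝ) ≤ x),
      |∫ t in Ioc b0 (b0 + 1), GG L s m t * GG L s n t| ≤ 8 * K2 * C / (c ^ 2 * κ0) * (1 / L n) := by
    have h1 : ∀ m ∈ T.filter (fun m : ℕ => ¬ (m : ℝ) ≤ x),
        |∫ t in Ioc b0 (b0 + 1), GG L s m t * GG L s n t| ≤
        K2 * (4 / (c ^ 2 * Real.log n ^ 2)) * ((m : ℝ) ^ 2)⁻¹ := by
      intro m hm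
      rw [Finset.mem_filter, not_le] at hm
      obtain ⟨h2, h3⟩ := hT m hm.1
      refine (hnear m (by omega) n h3).trans ?_
      have hm3 : (3 : ℝ) ≤ m := by exact_mod_cast (by omega : 3 ≤ m)
      have hm0 : (0 : ℝ) < m := by linarith
      have hLm := hL.pos m (by omega)
      obtain ⟨hlm, -, -⟩ := hP3 m (by omega)
      have h4 : Real.log n / 2 ≤ Real.log m := by
        have h5 : Real.sqrt n ≤ m := hxsq.trans hm.2.le
        have h6 : Real.log (Real.sqrt n) ≤ Real.log m := Real.log_le_log (Real.sqrt_pos.2 hn0) h5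
        rwa [Real.log_sqrt hn0.le] at h6
      have h5 : c * (m * (Real.log n / 2)) ≤ L m := by
        refine le_trans ?_ hlm
        gcongr
      have h6 : 1 / L m ≤ 1 / (c * (m * (Real.log n / 2))) :=
        one_div_le_one_div_of_le (by positivity) h5
      have h7 : (1 / L m) ^ 2 ≤ (1 / (c * (m * (Real.log n / 2)))) ^ 2 :=
        pow_le_pow_left₀ (by positivity) h6 2
      calc K2 * (1 / L m) ^ 2 ≤ K2 * (1 / (c * (m * (Real.log n / 2)))) ^ 2 :=
            mul_le_mul_of_nonneg_left h7 hK2.le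
        _ = _ := by field_simp; norm_num
    refine (Finset.sum_le_sum h1).trans ?_
    rw [← Finset.mul_sum]
    have h2 : ∑ m ∈ T.filter (fun m : ℕ => ¬ (m : ℝ) ≤ x), ((m : ℝ) ^ 2)⁻¹ ≤ 2 / x := by
      have h3 : T.filter (fun m : ℕ => ¬ (m : ℝ) ≤ x) ⊆ Finset.Ioo ⌊x⌋₊ n := by
        intro m hm
        rw [Finset.mem_filter, not_le] at hm
        rw [Finset.mem_Ioo]
        refine ⟨?_, (hT m hm.1).2⟩
        exact (Nat.floor_lt hx0.le).2 hm.2
      calc ∑ m ∈ T.filter (fun m : ℕ => ¬ (m : ℝ) ≤ x), ((m : ℝ) ^ 2)⁻¹ ≤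
            ∑ m ∈ Finset.Ioo ⌊x⌋₊ n, ((m : ℝ) ^ 2)⁻¹ :=
            Finset.sum_le_sum_of_subset_of_nonneg h3 fun _ _ _ => by positivity
        _ ≤ 2 / ((⌊x⌋₊ : ℝ) + 1) := sum_Ioo_inv_sq_le _ _
        _ ≤ 2 / x := div_le_div_of_nonneg_left (by norm_num) hx0 (Nat.lt_floor_add_one x).le
    have h3 : 1 / (n * Real.log n) ≤ C * (1 / L n) := by
      rw [mul_one_div, div_le_div_iff₀ (by positivity) hLn, one_mul]
      exact hun
    calc K2 * (4 / (c ^ 2 * Real.log n ^ 2)) * ∑ m ∈ T.filter (fun m : ℕ => ¬ (m : ℝ) ≤ x),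
          ((m : ℝ) ^ 2)⁻¹ ≤ K2 * (4 / (c ^ 2 * Real.log n ^ 2)) * (2 / x) :=
          mul_le_mul_of_nonneg_left h2 (by positivity)
      _ = 8 * K2 / (c ^ 2 * κ0) * (1 / (n * Real.log n)) := by
          rw [hx]; field_simp; norm_num
      _ ≤ 8 * K2 / (c ^ 2 * κ0) * (C * (1 / L n)) := mul_le_mul_of_nonneg_left h3 (by positivity)
      _ = _ := by ring
  have e : (K1 + 8 * K2 * C / (c ^ 2 * κ0)) * (1 / L n) = K1 * (1 / L n) +
    8 * K2 * C / (c ^ 2 * κ0) * (1 / L n) := by ring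
  rw [e]
  exact add_le_add hA hB

/-- the local mean is close to the weight -/
theorem mean_le (hL : Amp L) (hs : |s| ≤ 1) (b0 : ℝ) : ∃ K : ℝ, 0 < K ∧ ∃ P : ℕ, ∀ n ≥ P,
    ∀ t ∈ Ioc b0 (b0 + 1), |LL 1 (yy L s n t) - 1 / L n| ≤ K * (1 / (n * Real.log n ^ 2)) := by
  obtain ⟨C1, hC1, hrate⟩ := LL1_rate
  obtain ⟨c, hc, hlow⟩ := hL.lower
  obtain ⟨P, hP⟩ := eventually_atTop.1 ((hL.low hs b0).and (hlow.and (log_nat.eventually_ge_atTop 1)))
  refine ⟨4 * C1 / c ^ 2 + 2 * (|b0| + 2) / c ^ 2, by positivity, P, fun n hn t ht => ?_⟩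
  obtain ⟨⟨h3, hv, hA, hAn, -, -⟩, hl, hlog⟩ := hP n hn
  have hn3 : (3 : ℝ) ≤ n := by exact_mod_cast h3
  have hn0 : (0 : ℝ) < n := by linarith
  have hlogn : 0 < Real.log n := by linarith
  have hLn := hL.pos n (by omega)
  set y := yy L s n t with hy
  have h1 : yy L s n b0 ≤ y := yy_le hs ht.1.le (by linarith)
  have hy0 : 0 < y := by linarith
  have hyL : L n / 2 ≤ y := by linarith
  have hcl : 0 < c * (n * Real.log n) := by positivity
  have hL2 : 1 / L n ≤ 1 / (c * (n * Real.log n)) := one_div_le_one_div_of_le hcl hl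
  have hL2' : 0 < 1 / L n := by positivity
  have h2 := hrate y (by linarith)
  have hyi : 1 / y ≤ 2 * (1 / L n) := by
    calc 1 / y ≤ 1 / (L n / 2) := one_div_le_one_div_of_le (by positivity) hyL
      _ = _ := by field_simp
  have hyi0 : 0 < 1 / y := by positivity
  have h4 : C1 / y ^ 2 ≤ 4 * C1 / c ^ 2 * (1 / (n * Real.log n ^ 2)) := by
    calc C1 / y ^ 2 = C1 * (1 / y) ^ 2 := by field_simp
      _ ≤ C1 * (2 * (1 / (c * (n * Real.log n)))) ^ 2 := by
          have : 1 / y ≤ 2 * (1 / (c * (n * Real.log n))) := by linarith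
          gcongr
      _ = 4 * C1 / c ^ 2 * (1 / (n ^ 2 * Real.log n ^ 2)) := by field_simp; norm_num
      _ ≤ _ := by
          refine mul_le_mul_of_nonneg_left (one_div_le_one_div_of_le (by positivity) ?_) (by positivity)
          refine mul_le_mul_of_nonneg_right ?_ (by positivity)
          nlinarith
  have htb : |t| ≤ |b0| + 1 := by
    rw [abs_le]
    have h5 := neg_abs_le b0
    have h6 := le_abs_self b0
    constructor <;> linarith [ht.1, ht.2]
  have h5 : |y - L n| ≤ n * (|b0| + 2) := by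
    have hv' : 1 ≤ (n : ℝ) * t + L n := by
      have := mul_le_mul_of_nonneg_left ht.1.le hn0.le
      linarith
    have h6 := ls_near_one (s := s) hs hv'
    have h7 : |(n : ℝ) * t| ≤ n * (|b0| + 1) := by
      rw [abs_mul, abs_of_pos hn0]
      exact mul_le_mul_of_nonneg_left htb hn0.le
    have h8 : y - L n = (y - ((n : ℝ) * t + L n)) + n * t := by ring
    rw [h8]
    refine (abs_add_le _ _).trans ?_
    have h9 : |y - ((n : ℝ) * t + L n)| ≤ 1 := h6
    nlinarith
  have h6 : |1 / y - 1 / L n| ≤ 2 * (|b0| + 2) / c ^ 2 * (1 / (n * Real.log n ^ 2)) := by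
    have e : 1 / y - 1 / L n = -((y - L n) * ((1 / y) * (1 / L n))) := by field_simp; ring
    rw [e, abs_neg, abs_mul, abs_of_pos (by positivity : 0 < (1 / y) * (1 / L n))]
    calc |y - L n| * ((1 / y) * (1 / L n)) ≤ (n * (|b0| + 2)) * ((2 * (1 / (c * (n * Real.log n)))) *
          (1 / (c * (n * Real.log n)))) := by
          have : 1 / y ≤ 2 * (1 / (c * (n * Real.log n))) := by linarith
          gcongr
      _ = _ := by field_simp
  have e : LL 1 y - 1 / L n = (LL 1 y - 1 / y) + (1 / y - 1 / L n) := by ring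
  rw [e]
  refine (abs_add_le _ _).trans ?_
  calc |LL 1 y - 1 / y| + |1 / y - 1 / L n| ≤ 4 * C1 / c ^ 2 * (1 / (n * Real.log n ^ 2)) +
        2 * (|b0| + 2) / c ^ 2 * (1 / (n * Real.log n ^ 2)) := add_le_add (h2.trans h4) h6
    _ = _ := by ring

end

end Pool.Agent.X37.NP
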