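import Mathlib
import Pool.Agent.X37.NP.Row
import Pool.Agent.TH888.R.Blk
import Pool.Agent.TH888.R.Sh
import Pool.Agent.W66.SB

set_option autoImplicit false

/-!
# The law for every set of indices, in the variable `t = log β`
-/

namespace Pool.Agent.X37.NP

open MeasureTheory Set Filter Topology
open Pool.Agent.H305R2 (roughPart NN ff measurable_NN measurable_ff ff_nonneg ff_le_one
  integrableOn_ff LL LL_nonneg LL_le_one gg abs_gg_le abs_gg_le_one measurable_gg integrableOn_gg
  integrableOn_LL)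
open Pool.Agent.X10.AI (ff_one)
open Pool.Agent.TH888.R (gr one_le_gr gr_mono gr_le blocks ae_windows)
open Pool.Agent.W66S (moment_rows)

/-- the sum of `1 / (q log q ^ 2)` is bounded -/
lemma sum_log_sq (n : ℕ) : ∑ q ∈ Finset.Ico 3 n, 1 / ((q : ℝ) * Real.log q ^ 2) ≤ 1 / Real.log 2 := by
  have hl2 : 0 < Real.log 2 := Real.log_pos (by norm_num)
  rcases Nat.lt_or_ge n 3 with h | h
  · rw [Finset.Ico_eq_empty (by omega), Finset.sum_empty]; positivity
  have key : ∑ q ∈ Finset.Ico 3 n, 1 / ((q : ℝ) * Real.log q ^ 2) ≤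
      1 / Real.log 2 - 1 / Real.log ((n - 1 : ℕ) : ℝ) := by
    induction n, h using Nat.le_induction with
    | base => simp
    | succ n hn ih =>
      rw [Finset.sum_Ico_succ_top hn]
      have hn3 : (3 : ℝ) ≤ n := by exact_mod_cast hn
      have e1 : ((n - 1 : ℕ) : ℝ) = n - 1 := by
        rw [Nat.cast_sub (by omega)]; norm_num
      rw [e1] at ih
      have e2 : ((n + 1 - 1 : ℕ) : ℝ) = n := by simp
      rw [e2]
      set a := Real.log ((n : ℝ) - 1) with ha
      set b := Real.log (n : ℝ) with hb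
      have ha0 : 0 < a := Real.log_pos (by linarith)
      have hab : a ≤ b := Real.log_le_log (by linarith) (by linarith)
      have hb0 : 0 < b := by linarith
      have h1 : 1 / (n : ℝ) ≤ b - a := by
        have h2 := Real.one_sub_inv_le_log_of_pos (show 0 < (n : ℝ) / (n - 1) by
          apply div_pos <;> linarith)
        rw [Real.log_div (by linarith) (by linarith), ← ha, ← hb] at h2
        have h3 : 1 - ((n : ℝ) / (n - 1))⁻¹ = 1 / n := by
          have : (n : ℝ) - 1 ≠ 0 := by linarith
          have : (n : ℝ) ≠ 0 := by linarith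
          field_simp
          ring
        linarith
      have h4 : 1 / ((n : ℝ) * b ^ 2) ≤ 1 / a - 1 / b := by
        have e3 : 1 / a - 1 / b = (b - a) * (1 / (a * b)) := by field_simp
        have e4 : 1 / ((n : ℝ) * b ^ 2) = 1 / n * (1 / (b * b)) := by field_simp
        rw [e3, e4]
        refine mul_le_mul h1 (one_div_le_one_div_of_le (by positivity) ?_) (by positivity) (by linarith)
        exact mul_le_mul_of_nonneg_right hab hb0.le
      linarith
  refine key.trans ?_
  have : 0 ≤ 1 / Real.log ((n - 1 : ℕ) : ℝ) := by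
    have h2 : (2 : ℝ) ≤ ((n - 1 : ℕ) : ℝ) := by exact_mod_cast (by omega : 2 ≤ n - 1)
    have := Real.log_pos (show (1 : ℝ) < ((n - 1 : ℕ) : ℝ) by linarith)
    positivity
  linarith

open Classical in
/-- the sum of the weights of the indices `2 ≤ q ≤ n` in `S` -/
noncomputable def VS (L : ℕ → ℝ) (S : Set ℕ) (n : ℕ) : ℝ :=
  ∑ q ∈ Finset.range (n + 1), if q ∈ S ∧ 2 ≤ q then 1 / L q else 0

open Classical in
/-- the number of the indices `2 ≤ q ≤ n` in `S` with a prime value -/
noncomputable def CS (L : ℕ → ℝ) (s : ℝ) (S : Set ℕ) (t : ℝ) (n : ℕ) : ℝ :=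
  ∑ q ∈ Finset.range (n + 1), if q ∈ S ∧ 2 ≤ q then ff 1 (yy L s q t) else 0

section

variable {L : ℕ → ℝ} {s : ℝ}

lemma VS_nonneg (hL : Amp L) (S : Set ℕ) (n : ℕ) : 0 ≤ VS L S n := by
  unfold VS
  refine Finset.sum_nonneg fun q _ => ?_
  split_ifs with h
  · have := hL.pos q h.2
    positivity
  · exact le_rfl

open Classical in
/-- comparison with the sums over the indices `q ≥ P` -/
lemma tail_cmp (S : Set ℕ) {P : ℕ} (hP : 2 ≤ P) (h : ℕ → ℝ) (n : ℕ) :
    |(∑ q ∈ Finset.range (n + 1), if q ∈ S ∧ 2 ≤ q then h q else 0) -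
      ∑ q ∈ Finset.range (n + 1), if q ∈ S ∧ P ≤ q then h q else 0| ≤ ∑ q ∈ Finset.range P, |h q| := by
  rw [← Finset.sum_sub_distrib]
  refine (Finset.abs_sum_le_sum_abs _ _).trans ?_
  have h1 : ∀ q ∈ Finset.range (n + 1), |(if q ∈ S ∧ 2 ≤ q then h q else 0) -
      (if q ∈ S ∧ P ≤ q then h q else 0)| ≤ if q < P then |h q| else 0 := by
    intro q _
    by_cases hq : q < P
    · rw [if_pos hq, if_neg (fun hh => by omega : ¬ (q ∈ S ∧ P ≤ q)), sub_zero]
      split_ifs
      · exact le_rfl
      · rw [abs_zero]; exact abs_nonneg _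
    · rw [if_neg hq]
      by_cases hS : q ∈ S
      · rw [if_pos ⟨hS, by omega⟩, if_pos ⟨hS, by omega⟩, sub_self, abs_zero]
      · rw [if_neg (fun hh => hS hh.1), if_neg (fun hh => hS hh.1), sub_self, abs_zero]
  refine (Finset.sum_le_sum h1).trans ?_
  rw [← Finset.sum_filter]
  refine Finset.sum_le_sum_of_subset_of_nonneg ?_ fun _ _ _ => abs_nonneg _
  intro q hq
  rw [Finset.mem_filter] at hq
  exact Finset.mem_range.2 hq.2

open Classical in
/-- **The law with error term for a set of indices.** -/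
theorem law_t (hL : Amp L) (hs : |s| ≤ 1) (S : Set ℕ) (hdiv : Tendsto (VS L S) atTop atTop) (b0 : ℝ) :
    ∀ᵐ t ∂(volume.restrict (Ioc b0 (b0 + 1))), ∃ B : ℝ, 0 ≤ B ∧ ∀ n : ℕ,
      |CS L s S t n - VS L S n| ≤ B * gr (VS L S n) := by
  obtain ⟨K1, hK1, P1, hLL⟩ := LL_le hL hs b0
  obtain ⟨K2, hK2, P2, hdiag⟩ := diag_le hL hs b0
  obtain ⟨K3, hK3, P3, hrow⟩ := row_le hL hs b0
  obtain ⟨K4, hK4, P4, hmean⟩ := mean_le hL hs b0
  obtain ⟨P5, hP5⟩ := eventually_atTop.1 (hL.low hs b0)
  set P := P1 + P2 + P3 + P4 + P5 + 3 with hP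
  set μ := volume.restrict (Ioc b0 (b0 + 1)) with hμ
  have hfin : IsFiniteMeasure μ := ⟨by simp [hμ]⟩
  set φ : ℕ → ℝ := fun q => if q ∈ S ∧ P ≤ q then 1 / L q else 0 with hφ
  set D := ∑ q ∈ Finset.range P, |1 / L q| with hD
  have hφ0 : ∀ q, 0 ≤ φ q := fun q => by
    simp only [hφ]
    split_ifs with h
    · have := hL.pos q (by omega)
      positivity
    · exact le_rfl
  have hφVS : ∀ n, ∑ q ∈ Finset.range (n + 1), φ q ≤ VS L S n := by
    intro n
    unfold VS
    refine Finset.sum_le_sum fun q _ => ?_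
    simp only [hφ]
    by_cases h : q ∈ S ∧ P ≤ q
    · rw [if_pos h, if_pos ⟨h.1, by omega⟩]
    · rw [if_neg h]
      split_ifs with h2
      · have := hL.pos q h2.2
        positivity
      · exact le_rfl
  have hcmpV : ∀ n, |VS L S n - ∑ q ∈ Finset.range (n + 1), φ q| ≤ D := fun n =>
    tail_cmp S (P := P) (by omega) (fun q => 1 / L q) n
  have hdiv' : Tendsto (fun n => ∑ q ∈ Finset.range n, φ q) atTop atTop := by
    rw [← tendsto_add_atTop_iff_nat 1]
    refine tendsto_atTop_mono (fun n => ?_) (tendsto_atTop_add_const_right _ (-D) hdiv)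
    have := (abs_le.1 (hcmpV n)).2
    linarith
  have key := blocks (μ := μ) (f := fun q t => if q ∈ S ∧ P ≤ q then ff 1 (yy L s q t) else 0)
    (m := fun q t => if q ∈ S ∧ P ≤ q then LL 1 (yy L s q t) else 0) (φ := φ)
    (B0 := 1) (K := K1) (C := K2 + 2 * K3) hφ0
    (fun q => by
      simp only [hφ]
      split_ifs with h
      · obtain ⟨h3, -, -, -, -, h6⟩ := hP5 q (by omega)
        have h7 := hL.pos q (by omega)
        rw [div_le_one h7]
        have hq3 : (3 : ℝ) ≤ q := by exact_mod_cast h3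
        have := abs_nonneg b0
        nlinarith
      · norm_num)
    hdiv' hK1.le (by positivity)
    (fun q => by
      by_cases hq : q ∈ S ∧ P ≤ q
      · simp only [if_pos hq]; exact (measurable_ff 1).comp (measurable_yy L s q)
      · simp only [if_neg hq]; exact measurable_const)
    (fun q => by
      by_cases hq : q ∈ S ∧ P ≤ q
      · simp only [if_pos hq]
        have h1 : Measurable (LL 1) := by
          have h2 : LL 1 = fun y => ff 1 y - gg 1 y := by
            funext y
            unfold gg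
            ring
          rw [h2]
          exact (measurable_ff 1).sub (measurable_gg 1)
        exact h1.comp (measurable_yy L s q)
      · simp only [if_neg hq]; exact measurable_const)
    (fun q x => by
      split_ifs
      · exact ff_nonneg 1 _
      · exact le_rfl)
    (fun q x => by
      split_ifs
      · exact LL_nonneg 1 _
      · exact le_rfl)
    (fun q x => by
      split_ifs
      · exact abs_gg_le_one 1 _
      · norm_num)
    (by
      rw [hμ, ae_restrict_iff' measurableSet_Ioc]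
      refine Eventually.of_forall fun t ht q => ?_
      simp only [hφ]
      split_ifs with h
      · exact hLL q (by omega) t ht
      · rw [mul_zero])
    (by
      intro a b hab
      set T := (Finset.Ico a b).filter (fun q => q ∈ S ∧ P ≤ q) with hT
      have e1 : ∀ t, ∑ q ∈ Finset.Ico a b, ((if q ∈ S ∧ P ≤ q then ff 1 (yy L s q t) else 0) -
          if q ∈ S ∧ P ≤ q then LL 1 (yy L s q t) else 0) = ∑ q ∈ T, GG L s q t := by
        intro t
        rw [hT, Finset.sum_filter]
        refine Finset.sum_congr rfl fun q _ => ?_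
        split_ifs
        · rfl
        · norm_num
      have e2 : ∑ q ∈ Finset.Ico a b, φ q = ∑ q ∈ T, 1 / L q := by
        rw [hT, Finset.sum_filter]
      simp only [e1, e2]
      refine (moment_rows (μ := μ) (G := GG L s) (fun q => measurable_GG q)
        (fun q x => abs_GG_le_one q x) T).trans ?_
      rw [Finset.mul_sum]
      refine Finset.sum_le_sum fun q hq => ?_
      rw [hT, Finset.mem_filter] at hq
      have h1 := hdiag q (by omega)
      have h2 := hrow q (by omega) (T.filter (fun p => p < q)) (by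
        intro p hp
        rw [Finset.mem_filter, hT, Finset.mem_filter] at hp
        exact ⟨by omega, hp.2⟩)
      have e : (K2 + 2 * K3) * (1 / L q) = K2 * (1 / L q) + 2 * (K3 * (1 / L q)) := by ring
      rw [e]
      exact add_le_add h1 (by linarith))
  filter_upwards [key, (ae_restrict_mem measurableSet_Ioc : ∀ᵐ t ∂μ, t ∈ Ioc b0 (b0 + 1))] with t ht htI
  obtain ⟨B, hB, hBn⟩ := ht
  have hl2 : 0 < Real.log 2 := Real.log_pos (by norm_num)
  have hD0 : 0 ≤ D := Finset.sum_nonneg fun _ _ => abs_nonneg _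
  refine ⟨B + K4 * (1 / Real.log 2) + P + D, by positivity, fun n => ?_⟩
  have hV0 := VS_nonneg hL S n
  have hg1 : 1 ≤ gr (VS L S n) := one_le_gr hV0
  have h1 : |CS L s S t n - ∑ q ∈ Finset.range (n + 1), (if q ∈ S ∧ P ≤ q then ff 1 (yy L s q t) else 0)| ≤ P := by
    refine (tail_cmp S (P := P) (by omega) (fun q => ff 1 (yy L s q t)) n).trans ?_
    calc ∑ q ∈ Finset.range P, |ff 1 (yy L s q t)| ≤ ∑ q ∈ Finset.range P, (1 : ℝ) := by
          refine Finset.sum_le_sum fun q _ => ?_
          rw [abs_of_nonneg (ff_nonneg _ _)]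
          exact ff_le_one _ _
      _ = P := by simp
  have h2 := hBn (n + 1)
  rw [Finset.sum_sub_distrib] at h2
  have h3 : gr (∑ q ∈ Finset.range (n + 1), φ q) ≤ gr (VS L S n) :=
    gr_mono (Finset.sum_nonneg fun q _ => hφ0 q) (hφVS n)
  have h4 : |(∑ q ∈ Finset.range (n + 1), if q ∈ S ∧ P ≤ q then LL 1 (yy L s q t) else 0) -
      ∑ q ∈ Finset.range (n + 1), φ q| ≤ K4 * (1 / Real.log 2) := by
    rw [← Finset.sum_sub_distrib]
    refine (Finset.abs_sum_le_sum_abs _ _).trans ?_
    have h5 : ∀ q ∈ Finset.range (n + 1), |(if q ∈ S ∧ P ≤ q then LL 1 (yy L s q t) else 0) - φ q| ≤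
        if 3 ≤ q then K4 * (1 / (q * Real.log q ^ 2)) else 0 := by
      intro q _
      simp only [hφ]
      by_cases h : q ∈ S ∧ P ≤ q
      · rw [if_pos h, if_pos h, if_pos (by omega)]
        exact hmean q (by omega) t htI
      · rw [if_neg h, if_neg h, sub_zero, abs_zero]
        split_ifs
        · positivity
        · exact le_rfl
    refine (Finset.sum_le_sum h5).trans ?_
    rw [← Finset.sum_filter]
    have h6 : (Finset.range (n + 1)).filter (fun q => 3 ≤ q) = Finset.Ico 3 (n + 1) := by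
      ext q
      rw [Finset.mem_filter, Finset.mem_range, Finset.mem_Ico]
      exact and_comm
    rw [h6, ← Finset.mul_sum]
    exact mul_le_mul_of_nonneg_left (sum_log_sq (n + 1)) hK4.le
  have h5 := hcmpV n
  have h6 : B * gr (∑ q ∈ Finset.range (n + 1), φ q) ≤ B * gr (VS L S n) :=
    mul_le_mul_of_nonneg_left h3 hB
  have h7 : |CS L s S t n - VS L S n| ≤ B * gr (VS L S n) + K4 * (1 / Real.log 2) + P + D := by
    rw [abs_le] at h1 h2 h4 h5 ⊢
    constructor <;> linarith [h1.1, h1.2, h2.1, h2.2, h4.1, h4.2, h5.1, h5.2]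
  have hK : 0 ≤ K4 * (1 / Real.log 2) := by positivity
  have hP0 : (0 : ℝ) ≤ P := Nat.cast_nonneg _
  nlinarith

/-- **Convergent case.** -/
theorem fin_t (hL : Amp L) (hs : |s| ≤ 1) (S : Set ℕ) (hdiv : ¬ Tendsto (VS L S) atTop atTop) (b0 : ℝ) :
    ∀ᵐ t ∂(volume.restrict (Ioc b0 (b0 + 1))),
      {q : ℕ | q ∈ S ∧ (NN (yy L s q t)).Prime}.Finite := by
  classical
  obtain ⟨K1, hK1, P1, h1⟩ := one_le hL hs b0
  set P := P1 + 2 with hP
  set μ := volume.restrict (Ioc b0 (b0 + 1)) with hμ
  have hfin : IsFiniteMeasure μ := ⟨by simp [hμ]⟩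
  have hmono : Monotone (VS L S) := by
    intro a b hab
    unfold VS
    refine Finset.sum_le_sum_of_subset_of_nonneg (Finset.range_mono (by omega)) fun q _ _ => ?_
    split_ifs with h
    · have := hL.pos q h.2
      positivity
    · exact le_rfl
  obtain ⟨M, hM⟩ : ∃ M : ℝ, ∀ n, VS L S n ≤ M := by
    by_contra hc
    push Not at hc
    refine hdiv (tendsto_atTop_atTop_of_monotone hmono fun b => ?_)
    obtain ⟨n, hn⟩ := hc b
    exact ⟨n, hn.le⟩
  set φ : ℕ → ℝ := fun q => if q ∈ S ∧ 2 ≤ q then 1 / L q else 0 with hφ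
  have hφ0 : ∀ q, 0 ≤ φ q := fun q => by
    simp only [hφ]
    split_ifs with h
    · have := hL.pos q h.2
      positivity
    · exact le_rfl
  have hsum : Summable φ := by
    refine summable_of_sum_range_le hφ0 (c := M) fun n => ?_
    calc ∑ q ∈ Finset.range n, φ q ≤ ∑ q ∈ Finset.range (n + 1), φ q :=
          Finset.sum_le_sum_of_subset_of_nonneg (Finset.range_mono (by omega)) fun q _ _ => hφ0 q
      _ ≤ M := hM n
  set A : ℕ → Set ℝ := fun q => if q ∈ S ∧ P ≤ q then {t : ℝ | (NN (yy L s q t)).Prime} else ∅ with hA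
  have hmeas : ∀ q, MeasurableSet {t : ℝ | (NN (yy L s q t)).Prime} := fun q =>
    (measurable_NN.comp (measurable_yy L s q)) (MeasurableSet.of_discrete (s := {k : ℕ | k.Prime}))
  have hle : ∀ q, μ (A q) ≤ ENNReal.ofReal (K1 * φ q) := by
    intro q
    simp only [hA]
    split_ifs with h
    · have h2 := h1 q (by omega)
      have e : ∫ t in Ioc b0 (b0 + 1), ff 1 (yy L s q t) = μ.real {t : ℝ | (NN (yy L s q t)).Prime} := by
        have e1 : ∀ t, ff 1 (yy L s q t) =
            ({t : ℝ | (NN (yy L s q t)).Prime}).indicator (fun _ => (1 : ℝ)) t := by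
          intro t
          rw [ff_one]
          by_cases hp : (NN (yy L s q t)).Prime
          · rw [if_pos hp, Set.indicator_of_mem (show t ∈ {t : ℝ | (NN (yy L s q t)).Prime} from hp)]
          · rw [if_neg hp, Set.indicator_of_notMem (fun h : t ∈ {t : ℝ | (NN (yy L s q t)).Prime} => hp h)]
        simp only [e1]
        rw [integral_indicator_const _ (hmeas q), smul_eq_mul, mul_one]
      rw [e, measureReal_def] at h2
      have h3 : K1 * φ q = K1 * (1 / L q) := by
        simp only [hφ]
        rw [if_pos ⟨h.1, by omega⟩]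
      rw [h3]
      have h4 := hL.pos q (by omega)
      exact (ENNReal.le_ofReal_iff_toReal_le (measure_ne_top _ _) (by positivity)).2 h2
    · simp
  have hsum' : (∑' q, μ (A q)) ≠ ⊤ := by
    refine ne_top_of_le_ne_top ?_ (ENNReal.tsum_le_tsum hle)
    exact (hsum.mul_left K1).tsum_ofReal_ne_top
  filter_upwards [ae_eventually_notMem hsum'] with t ht
  obtain ⟨N, hN⟩ := eventually_atTop.1 ht
  refine (Set.finite_lt_nat (N + P)).subset fun q hq => ?_
  by_contra hc
  have hc' : N + P ≤ q := not_lt.1 hc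
  refine hN q (by omega) ?_
  simp only [hA]
  rw [if_pos ⟨hq.1, by omega⟩]
  exact hq.2

end

end Pool.Agent.X37.NP
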