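import Mathlib
import Pool.Agent.X37.NP.Law
import Pool.Agent.X10.AI.Space

set_option autoImplicit false

/-!
# Integer parts, comparison functions
-/

namespace Pool.Agent.X37.NP

open MeasureTheory Set Filter Topology Asymptotics
open Pool.Agent.H305R2 (NN ff ff_nonneg ff_le_one)
open Pool.Agent.X10.AI (ff_one NN_floor)
open Pool.Agent.TH888.R (gr one_le_gr gr_mono gr_le blocks ae_windows)

/-- the values are almost surely not integers -/
lemma ae_ne (L : ℕ → ℝ) (s : ℝ) : ∀ᵐ t : ℝ, ∀ n : ℕ, 1 ≤ n → ∀ m : ℕ,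
    Real.exp (n * t + L n) + s ≠ m := by
  have hnull : volume (⋃ n : ℕ, ⋃ m : ℕ, {t : ℝ | 1 ≤ n ∧ Real.exp (n * t + L n) + s = m}) = 0 := by
    refine Set.Countable.measure_zero ?_ volume
    refine Set.countable_iUnion fun n => Set.countable_iUnion fun m => ?_
    refine Set.Subsingleton.countable ?_
    intro x hx y hy
    simp only [Set.mem_ofPred_eq] at hx hy
    have hn0 : (0 : ℝ) < n := by exact_mod_cast hx.1
    have h3 : Real.exp (n * x + L n) = Real.exp (n * y + L n) := by linarith [hx.2, hy.2]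
    have h4 := Real.exp_injective h3
    have h5 : (n : ℝ) * x = n * y := by linarith
    exact mul_left_cancel₀ hn0.ne' h5
  have hae : ∀ᵐ t : ℝ, t ∉ ⋃ n : ℕ, ⋃ m : ℕ, {t : ℝ | 1 ≤ n ∧ Real.exp (n * t + L n) + s = m} := by
    rw [ae_iff]
    refine measure_mono_null (fun t ht => ?_) hnull
    simpa only [Set.mem_ofPred_eq, not_not] using ht
  filter_upwards [hae] with t ht n hn m hm
  refine ht ?_
  simp only [Set.mem_iUnion]
  exact ⟨n, m, hn, hm⟩

/-- the law for almost every `t` -/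
theorem law_all {L : ℕ → ℝ} {s : ℝ} (hL : Amp L) (hs : |s| ≤ 1) (S : Set ℕ)
    (hdiv : Tendsto (VS L S) atTop atTop) : ∀ᵐ t : ℝ, ∃ B : ℝ, 0 ≤ B ∧ ∀ n : ℕ,
      |CS L s S t n - VS L S n| ≤ B * gr (VS L S n) :=
  ae_windows fun b0 => law_t hL hs S hdiv b0

theorem fin_all {L : ℕ → ℝ} {s : ℝ} (hL : Amp L) (hs : |s| ≤ 1) (S : Set ℕ)
    (hdiv : ¬ Tendsto (VS L S) atTop atTop) : ∀ᵐ t : ℝ, {q : ℕ | q ∈ S ∧ (NN (yy L s q t)).Prime}.Finite :=
  ae_windows fun b0 => fin_t hL hs S hdiv b0

/-- the growth function in simpler terms -/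
lemma gr_bound {x : ℝ} (hx : 3 ≤ x) : gr x ≤ 18 * (Real.sqrt x * (Real.log x) ^ 2) := by
  unfold gr
  have h1 : Real.sqrt (1 + x) ≤ 2 * Real.sqrt x := by
    have e : 2 * Real.sqrt x = Real.sqrt (4 * x) := by
      rw [Real.sqrt_mul (by norm_num), show (4 : ℝ) = 2 ^ 2 by norm_num, Real.sqrt_sq (by norm_num)]
    rw [e]
    exact Real.sqrt_le_sqrt (by linarith)
  have hlog1 : 1 ≤ Real.log x := by
    rw [Real.le_log_iff_exp_le (by linarith)]
    have := Real.exp_one_lt_d9
    linarith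
  have h2 : 1 + Real.log (1 + x) ≤ 3 * Real.log x := by
    have h3 : Real.log (1 + x) ≤ Real.log (x * x) := Real.log_le_log (by linarith) (by nlinarith)
    rw [Real.log_mul (by linarith) (by linarith)] at h3
    linarith
  have h0 : 0 ≤ Real.log (1 + x) := Real.log_nonneg (by linarith)
  calc Real.sqrt (1 + x) * (1 + Real.log (1 + x)) ^ 2 ≤ (2 * Real.sqrt x) * (3 * Real.log x) ^ 2 := by
        gcongr
    _ = _ := by ring

lemma gr_isBigO {V : ℕ → ℝ} (hV : Tendsto V atTop atTop) {F : ℕ → ℝ} {B : ℝ} (hB : 0 ≤ B)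
    (h : ∀ n, |F n| ≤ B * gr (V n)) :
    F =O[atTop] fun n => Real.sqrt (V n) * (Real.log (V n)) ^ 2 := by
  refine IsBigO.of_bound (B * 18) ?_
  filter_upwards [hV.eventually_ge_atTop 3] with n hn
  have h1 : 0 ≤ Real.sqrt (V n) * (Real.log (V n)) ^ 2 := by positivity
  rw [Real.norm_eq_abs, Real.norm_eq_abs, abs_of_nonneg h1]
  calc |F n| ≤ B * gr (V n) := h n
    _ ≤ B * (18 * (Real.sqrt (V n) * (Real.log (V n)) ^ 2)) := mul_le_mul_of_nonneg_left (gr_bound hn) hB
    _ = _ := by ring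

lemma step_up {q : ℕ} (hq : 3 ≤ q) : 1 / ((q : ℝ) * Real.log q) ≤
    Real.log (Real.log q) - Real.log (Real.log ((q : ℝ) - 1)) := by
  have hq3 : (3 : ℝ) ≤ q := by exact_mod_cast hq
  set a := Real.log ((q : ℝ) - 1) with ha
  set b := Real.log (q : ℝ) with hb
  have ha0 : 0 < a := Real.log_pos (by linarith)
  have hb0 : 0 < b := Real.log_pos (by linarith)
  have h1 : 1 / (q : ℝ) ≤ b - a := by
    have h2 := Real.one_sub_inv_le_log_of_pos (show 0 < (q : ℝ) / (q - 1) by
      apply div_pos <;> linarith)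
    rw [Real.log_div (by linarith) (by linarith), ← ha, ← hb] at h2
    have h3 : 1 - ((q : ℝ) / (q - 1))⁻¹ = 1 / q := by
      have : (q : ℝ) - 1 ≠ 0 := by linarith
      have : (q : ℝ) ≠ 0 := by linarith
      field_simp
      ring
    linarith
  have h4 := Real.one_sub_inv_le_log_of_pos (show 0 < b / a by positivity)
  rw [Real.log_div hb0.ne' ha0.ne'] at h4
  have h5 : 1 - (b / a)⁻¹ = (b - a) / b := by field_simp
  rw [h5] at h4
  have h6 : 1 / ((q : ℝ) * b) ≤ (b - a) / b := by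
    calc 1 / ((q : ℝ) * b) = (1 / q) / b := by field_simp
      _ ≤ _ := div_le_div_of_nonneg_right h1 hb0.le
  linarith

lemma step_low {q : ℕ} (hq : 2 ≤ q) : Real.log (Real.log ((q : ℝ) + 1)) - Real.log (Real.log q) ≤
    1 / ((q : ℝ) * Real.log q) := by
  have hq2 : (2 : ℝ) ≤ q := by exact_mod_cast hq
  set a := Real.log (q : ℝ) with ha
  set b := Real.log ((q : ℝ) + 1) with hb
  have ha0 : 0 < a := Real.log_pos (by linarith)
  have hb0 : 0 < b := Real.log_pos (by linarith)
  have h1 : b - a ≤ 1 / (q : ℝ) := by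
    have h2 := Real.log_le_sub_one_of_pos (show 0 < ((q : ℝ) + 1) / q by
      apply div_pos <;> linarith)
    rw [Real.log_div (by linarith) (by linarith), ← ha, ← hb] at h2
    have h3 : ((q : ℝ) + 1) / q - 1 = 1 / q := by
      have : (q : ℝ) ≠ 0 := by linarith
      field_simp
      ring
    linarith
  have h4 := Real.log_le_sub_one_of_pos (show 0 < b / a by positivity)
  rw [Real.log_div hb0.ne' ha0.ne'] at h4
  have h5 : b / a - 1 = (b - a) / a := by field_simp
  rw [h5] at h4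
  have h6 : (b - a) / a ≤ 1 / ((q : ℝ) * a) := by
    calc (b - a) / a ≤ (1 / q) / a := div_le_div_of_nonneg_right h1 ha0.le
      _ = _ := by field_simp
  linarith

/-- the sum of `1 / (q log q)` from above -/
lemma sum_up (n : ℕ) (hn : 2 ≤ n) : ∑ q ∈ Finset.Icc 2 n, 1 / ((q : ℝ) * Real.log q) ≤
      Real.log (Real.log n) - Real.log (Real.log 2) + 1 / (2 * Real.log 2) := by
  induction n, hn using Nat.le_induction with
  | base => simp
  | succ n hn ih =>
    rw [← Finset.insert_Icc_right_eq_Icc_add_one (by omega), Finset.sum_insert (by simp)]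
    have h1 := step_up (q := n + 1) (by omega)
    push_cast at h1 ⊢
    have e2 : (n : ℝ) + 1 - 1 = n := by ring
    rw [e2] at h1
    linarith

/-- the sum of `1 / (q log q)` from below -/
lemma sum_low (n : ℕ) (hn : 2 ≤ n) : Real.log (Real.log ((n : ℝ) + 1)) - Real.log (Real.log 2) ≤
    ∑ q ∈ Finset.Icc 2 n, 1 / ((q : ℝ) * Real.log q) := by
  induction n, hn using Nat.le_induction with
  | base =>
    have := step_low (q := 2) le_rfl
    simpa using this
  | succ n hn ih =>
    rw [← Finset.insert_Icc_right_eq_Icc_add_one (by omega), Finset.sum_insert (by simp)]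
    have h1 := step_low (q := n + 1) (by omega)
    push_cast at h1 ⊢
    linarith

/-- the sum of `1 / (q log q)` -/
lemma sum_abs (n : ℕ) (hn : 2 ≤ n) : |(∑ q ∈ Finset.Icc 2 n, 1 / ((q : ℝ) * Real.log q)) -
    Real.log (Real.log n)| ≤ 2 := by
  have h1 := sum_up n hn
  have h2 := sum_low n hn
  have hn2 : (2 : ℝ) ≤ n := by exact_mod_cast hn
  have hl2 := Real.log_two_gt_d9
  have hl2' := Real.log_two_lt_d9
  have hl0 : 0 < Real.log 2 := by linarith
  have hln : 0 < Real.log n := Real.log_pos (by linarith)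
  have h3 : Real.log (Real.log n) ≤ Real.log (Real.log ((n : ℝ) + 1)) :=
    Real.log_le_log hln (Real.log_le_log (by linarith) (by linarith))
  have h4 : Real.log (Real.log 2) ≤ 0 := Real.log_nonpos hl0.le (by linarith)
  have h5 : 1 - (Real.log 2)⁻¹ ≤ Real.log (Real.log 2) := Real.one_sub_inv_le_log_of_pos hl0
  have h6 : (Real.log 2)⁻¹ ≤ 3 / 2 := by
    rw [inv_le_comm₀ hl0 (by norm_num)]
    norm_num
    linarith
  have h7 : 1 / (2 * Real.log 2) ≤ 3 / 4 := by
    have : 1 / (2 * Real.log 2) = (Real.log 2)⁻¹ / 2 := by field_simp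
    rw [this]; linarith
  rw [abs_le]
  constructor <;> linarith

end Pool.Agent.X37.NP
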